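import Pool.Agent.Lib.PL3.Defs

/-!
Module PL3.Calib: the certificate from finitely many lines.

`κ A x = ∫_0^x a`.  For `0 ≤ x ≤ Y`, `Z x = max (A x - zl) (min_j (A x - g_j x)/r_j³)`, for `x ≥ Y`,
`Z x = Z Y + A x - A Y`, and `G = Z/√(1 - Z²)`.
-/

open MeasureTheory Set Filter Topology
open scoped ContDiff NNReal

namespace PL3

namespace CalibAux

theorem kap_pos : 0 < kap := by unfold kap; positivity

/-- the arithmetic-geometric inequality -/
theorem amgm {r c a : ℝ} (hr : 0 < r) (hc : 0 < c) (ha : 0 < a) :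
    r * c - r ^ 3 * (Real.pi ^ 2 * c ^ 3 / a ^ 2) ≤ a / kap := by
  set q := Real.sqrt 3 with hq
  have hq0 : 0 < q := Real.sqrt_pos.2 (by norm_num)
  have hq2 : q ^ 2 = 3 := Real.sq_sqrt (by norm_num)
  have hπ := Real.pi_pos
  set β := a / (q * Real.pi) with hβ
  have hβ0 : 0 < β := by positivity
  have haβ : a = q * Real.pi * β := by rw [hβ]; field_simp
  have e1 : a / kap = 2 / 3 * β := by
    rw [haβ]
    unfold kap
    rw [← hq]
    field_simp
  have e2 : Real.pi ^ 2 * c ^ 3 / a ^ 2 = c ^ 3 / (3 * β ^ 2) := by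
    rw [haβ, mul_pow, mul_pow, hq2]
    field_simp
  rw [e1, e2]
  have h1 : 0 ≤ (β - r * c) ^ 2 * (2 * β + r * c) := by positivity
  have h2 : 0 < 3 * β ^ 2 := by positivity
  have h3 : r * c - r ^ 3 * (c ^ 3 / (3 * β ^ 2)) - 2 / 3 * β =
      -((β - r * c) ^ 2 * (2 * β + r * c)) / (3 * β ^ 2) := by
    field_simp
    ring
  have h4 : -((β - r * c) ^ 2 * (2 * β + r * c)) / (3 * β ^ 2) ≤ 0 :=
    div_nonpos_of_nonpos_of_nonneg (by linarith) h2.le
  linarith

/-- two functions touching at a point of differentiability -/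
theorem touch {u v : ℝ → ℝ} {x v' : ℝ} (hu : DifferentiableAt ℝ u x) (hv : HasDerivAt v v' x)
    (h : ∀ᶠ y in 𝓝 x, u y ≤ v y) (he : u x = v x) : deriv u x = v' := by
  have h1 : IsLocalMin (fun y => v y - u y) x := by
    filter_upwards [h] with y hy
    rw [he, sub_self]
    exact sub_nonneg.2 hy
  have h2 := h1.hasDerivAt_eq_zero (hv.sub hu.hasDerivAt)
  linarith

theorem touch' {u v : ℝ → ℝ} {x v' : ℝ} (hu : DifferentiableAt ℝ u x) (hv : HasDerivAt v v' x)
    (h : ∀ᶠ y in 𝓝 x, v y ≤ u y) (he : u x = v x) : deriv u x = v' := by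
  have h1 : IsLocalMin (fun y => u y - v y) x := by
    filter_upwards [h] with y hy
    rw [he, sub_self]
    exact sub_nonneg.2 hy
  have h2 := h1.hasDerivAt_eq_zero (hu.hasDerivAt.sub hv)
  linarith

/-- `Γ z = z / √(1 - z²)` -/
theorem gam_deriv {z : ℝ} (h1 : -1 < z) (h2 : z < 1) :
    HasDerivAt (fun z : ℝ => z / Real.sqrt (1 - z ^ 2)) (1 / Real.sqrt (1 - z ^ 2) ^ 3) z := by
  have h3 : 0 < 1 - z ^ 2 := by nlinarith
  have hc : 0 < Real.sqrt (1 - z ^ 2) := Real.sqrt_pos.2 h3
  have hc2 : Real.sqrt (1 - z ^ 2) ^ 2 = 1 - z ^ 2 := Real.sq_sqrt h3.le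
  have h4 : HasDerivAt (fun z : ℝ => 1 - z ^ 2) (-(2 * z)) z := by
    simpa using (hasDerivAt_pow 2 z).const_sub (1 : ℝ)
  have h5 := h4.sqrt h3.ne'
  have h6 := (hasDerivAt_id z).div h5 hc.ne'
  have e : (1 * Real.sqrt (1 - z ^ 2) - id z * (-(2 * z) / (2 * Real.sqrt (1 - z ^ 2)))) /
      Real.sqrt (1 - z ^ 2) ^ 2 = 1 / Real.sqrt (1 - z ^ 2) ^ 3 := by
    rw [show id z = z from rfl]
    generalize Real.sqrt (1 - z ^ 2) = c at hc hc2
    have hc' := hc.ne'
    rw [div_eq_div_iff (by positivity) (by positivity)]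
    have e2 : z * (-(2 * z) / (2 * c)) = -(z ^ 2) / c := by
      field_simp
    rw [e2]
    have e3 : (1 * c - -(z ^ 2) / c) * c ^ 3 = (c ^ 2 + z ^ 2) * c ^ 2 := by
      field_simp
      ring
    rw [e3, hc2]
    ring
  rw [← e]
  exact h6

end CalibAux

open CalibAux

theorem calib {ι : Type} [Fintype ι] [Nonempty ι] (r : ι → ℝ) (g g' : ι → ℝ → ℝ)
    {Y s zl W : ℝ} (hY : 0 < Y) (hs : 0 ≤ s) (hzl : 0 ≤ zl) (hzl1 : zl < 1) (hW : W ≤ 1 + s)
    (hr : ∀ j, 0 < r j) (hg0 : ∀ j, g j 0 = 0)
    (hg : ∀ j x, HasDerivAt (g j) (g' j x) x) (hgc : ∀ j, Continuous (g' j))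
    (j0 : ι) (hj0 : r j0 = 1) (hj0' : ∀ x, g j0 x = 0)
    (hact : ∀ j, ∀ y ∈ Icc 0 Y, ∀ z, -zl ≤ z → z < 1 →
      (∀ i, r i ^ 3 * z + g i y ≤ r j ^ 3 * z + g j y) →
      g' j y ≤ (r j - r j ^ 3) * Real.sqrt (1 - z ^ 2))
    (hterm : ∀ z, -zl ≤ z → z ≤ 1 → ∃ j, W ≤ (1 + s) * (r j ^ 3 * z + g j Y) + 1 - z) :
    Cert Y s zl W := by
  rintro a ham ha0 ⟨M, hM⟩ ⟨R, hR⟩ h1 h2
  have hκ := kap_pos
  have hM0 : 0 ≤ M := (ha0 0).trans (hM 0)
  have hloc : LocallyIntegrable a volume :=
    (locallyIntegrable_const M).mono ham.aestronglyMeasurable (Eventually.of_forall fun x => by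
      rw [Real.norm_of_nonneg (ha0 x), Real.norm_of_nonneg hM0]
      exact hM x)
  have hii : ∀ x y : ℝ, IntervalIntegrable a volume x y := fun x y =>
    intervalIntegrable_iff.2 ((hloc.integrableOn_isCompact isCompact_uIcc).mono_set uIoc_subset_uIcc)
  have hIoi : IntegrableOn a (Ioi 0) := by
    have h3 : IntegrableOn a (Ioc 0 (max R 0)) :=
      (hloc.integrableOn_isCompact (isCompact_Icc (a := 0) (b := max R 0))).mono_set Ioc_subset_Icc_self
    have h4 : IntegrableOn a (Ioi (max R 0)) := by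
      refine (integrableOn_zero (s := Ioi (max R 0)) (μ := volume)).congr_fun ?_ measurableSet_Ioi
      intro x hx
      exact (hR x (lt_of_le_of_lt (le_max_left _ _) hx)).symm
    rw [← Ioc_union_Ioi_eq_Ioi (le_max_right R 0)]
    exact h3.union h4
  -- the cumulated area
  set A : ℝ → ℝ := fun x => (∫ t in (0 : ℝ)..x, a t) / kap with hA
  have hA0 : A 0 = 0 := by simp [hA]
  have hAd : ∀ x y, A y - A x = (∫ t in x..y, a t) / kap := by
    intro x y
    show (∫ t in (0 : ℝ)..y, a t) / kap - (∫ t in (0 : ℝ)..x, a t) / kap = _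
    rw [← sub_div, intervalIntegral.integral_interval_sub_left (hii 0 y) (hii 0 x)]
  have hAm : Monotone A := by
    intro x y hxy
    have h3 : 0 ≤ ∫ t in x..y, a t := intervalIntegral.integral_nonneg hxy fun t _ => ha0 t
    have h4 := hAd x y
    have h5 : 0 ≤ (∫ t in x..y, a t) / kap := by positivity
    linarith
  have hAl : LipschitzWith (Real.toNNReal (M / kap)) A := by
    refine LipschitzWith.of_dist_le_mul fun x y => ?_
    rw [Real.coe_toNNReal _ (by positivity), Real.dist_eq, Real.dist_eq, hAd y x, abs_div,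
      abs_of_pos hκ]
    have h3 : |∫ t in y..x, a t| ≤ M * |x - y| := by
      have := intervalIntegral.norm_integral_le_of_norm_le_const (a := y) (b := x) (C := M) (f := a)
        fun t _ => by rw [Real.norm_of_nonneg (ha0 t)]; exact hM t
      rwa [Real.norm_eq_abs] at this
    rw [div_mul_eq_mul_div]
    exact div_le_div_of_nonneg_right h3 hκ.le
  set AI : ℝ := (∫ x in Ioi 0, a x) / kap with hAI
  have hAle : ∀ x, A x ≤ AI := by
    intro x
    rcases le_total x 0 with h | h
    · have h3 := hAm h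
      rw [hA0] at h3
      refine h3.trans ?_
      have : 0 ≤ ∫ x in Ioi 0, a x := integral_nonneg fun t => ha0 t
      positivity
    · show (∫ t in (0 : ℝ)..x, a t) / kap ≤ _
      rw [intervalIntegral.integral_of_le h]
      refine div_le_div_of_nonneg_right ?_ hκ.le
      exact setIntegral_mono_set hIoi (Eventually.of_forall fun t => ha0 t)
        (Eventually.of_forall Ioc_subset_Ioi_self)
  have hAY : A Y = (∫ x in Ioc 0 Y, a x) / kap := by
    show (∫ t in (0 : ℝ)..Y, a t) / kap = _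
    rw [intervalIntegral.integral_of_le hY.le]
  have h1' : AI < 1 + zl := by
    rw [hAI, div_lt_iff₀ hκ]
    linarith
  have h2' : AI + s * A Y < W := by
    rw [hAI, hAY, ← mul_div_assoc, ← add_div, div_lt_iff₀ hκ]
    linarith
  have hAY1 : A Y < 1 := by
    have h3 := hAle Y
    have h4 : (1 + s) * A Y < 1 + s := by nlinarith
    by_contra hcon
    nlinarith [not_lt.1 hcon]
  -- clamps
  set c : ℝ → ℝ := fun x => max 0 (min x Y) with hc
  have hcl : LipschitzWith 1 c := by
    have h3 : LipschitzWith 1 fun x : ℝ => min x Y := by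
      simpa using (LipschitzWith.id (α := ℝ)).min_const Y
    simpa using h3.const_max 0
  have hcm : ∀ x, c x ∈ Icc 0 Y := fun x =>
    ⟨le_max_left _ _, max_le hY.le (min_le_right _ _)⟩
  have hc0 : ∀ x ≤ 0, c x = 0 := fun x hx => by
    show max 0 (min x Y) = 0
    exact max_eq_left ((min_le_left _ _).trans hx)
  have hcx : ∀ x ∈ Icc 0 Y, c x = x := fun x hx => by
    show max 0 (min x Y) = x
    rw [min_eq_left hx.2, max_eq_right hx.1]
  have hcY : ∀ x, Y ≤ x → c x = Y := fun x hx => by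
    show max 0 (min x Y) = Y
    rw [min_eq_right hx, max_eq_right hY.le]
  have hgl : ∀ j, ∃ K : ℝ≥0, LipschitzWith K fun x => g j (c x) := by
    intro j
    have h3 : ContDiffOn ℝ 1 (g j) (Icc 0 Y) := by
      have : ContDiff ℝ 1 (g j) := by
        rw [contDiff_one_iff_deriv]
        refine ⟨fun x => (hg j x).differentiableAt, ?_⟩
        have e : deriv (g j) = g' j := funext fun x => (hg j x).deriv
        rw [e]
        exact hgc j
      exact this.contDiffOn
    obtain ⟨C, hC⟩ := h3.exists_lipschitzOnWith one_ne_zero (convex_Icc 0 Y) isCompact_Icc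
    refine ⟨C * 1, ?_⟩
    rw [← lipschitzOnWith_univ]
    exact hC.comp (hcl.lipschitzOnWith (s := univ)) fun x _ => hcm x
  set L : ι → ℝ → ℝ := fun j x => (A (c x) - g j (c x)) / r j ^ 3 with hL
  have hr3 : ∀ j, 0 < r j ^ 3 := fun j => pow_pos (hr j) 3
  have hLl : ∀ j, ∃ K : ℝ≥0, ∀ x y, |L j x - L j y| ≤ K * |x - y| := by
    intro j
    obtain ⟨K, hK⟩ := hgl j
    refine ⟨(Real.toNNReal (M / kap) + K) / (Real.toNNReal (r j ^ 3)), fun x y => ?_⟩
    have h3 : |A (c x) - A (c y)| ≤ Real.toNNReal (M / kap) * |x - y| := by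
      have h4 := hAl.dist_le_mul (c x) (c y)
      have h5 := hcl.dist_le_mul x y
      rw [Real.dist_eq, Real.dist_eq] at h4 h5
      rw [NNReal.coe_one, one_mul] at h5
      exact h4.trans (mul_le_mul_of_nonneg_left h5 (NNReal.coe_nonneg _))
    have h4 : |g j (c x) - g j (c y)| ≤ K * |x - y| := by
      have := hK.dist_le_mul x y
      rwa [Real.dist_eq, Real.dist_eq] at this
    have e : L j x - L j y = ((A (c x) - A (c y)) - (g j (c x) - g j (c y))) / r j ^ 3 := by
      show (A (c x) - g j (c x)) / r j ^ 3 - (A (c y) - g j (c y)) / r j ^ 3 = _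
      rw [← sub_div]
      congr 1
      ring
    rw [e, abs_div, abs_of_pos (hr3 j), NNReal.coe_div, NNReal.coe_add,
      Real.coe_toNNReal (r j ^ 3) (hr3 j).le, div_mul_eq_mul_div]
    refine div_le_div_of_nonneg_right ?_ (hr3 j).le
    refine (abs_sub _ _).trans ?_
    rw [add_mul]
    exact add_le_add h3 h4
  choose KL hKL using hLl
  set mm : ℝ → ℝ := fun x => Finset.univ.inf' Finset.univ_nonempty fun j => L j x with hmm
  have hmmle : ∀ j x, mm x ≤ L j x := fun j x => Finset.inf'_le _ (Finset.mem_univ j)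
  have hmmex : ∀ x, ∃ j, mm x = L j x := by
    intro x
    obtain ⟨j, -, hj⟩ := Finset.exists_mem_eq_inf' (Finset.univ_nonempty (α := ι)) fun j => L j x
    exact ⟨j, hj⟩
  have hmml : LipschitzWith (∑ j, KL j) mm := by
    refine LipschitzWith.of_le_add_mul _ fun x y => ?_
    obtain ⟨j, hj⟩ := hmmex y
    rw [hj, Real.dist_eq]
    have h3 := (abs_le.1 (hKL j x y)).2
    have h4 : (KL j : ℝ) ≤ (∑ j, KL j : ℝ≥0) := by
      exact_mod_cast Finset.single_le_sum (f := KL) (fun i _ => zero_le) (Finset.mem_univ j)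
    have h5 := mul_le_mul_of_nonneg_right h4 (abs_nonneg (x - y))
    linarith [hmmle j x]
  set ZZ : ℝ → ℝ := fun x => max (A (c x) - zl) (mm x) with hZZ
  have hAcl : LipschitzWith (Real.toNNReal (M / kap) * 1) fun x => A (c x) := hAl.comp hcl
  have hZZl : ∃ K : ℝ≥0, LipschitzWith K ZZ := by
    have h3 : LipschitzWith (Real.toNNReal (M / kap) * 1) fun x => A (c x) - zl := by
      simpa [sub_eq_add_neg] using hAcl.add (LipschitzWith.const (-zl))
    exact ⟨_, h3.max hmml⟩
  set Z : ℝ → ℝ := fun x => ZZ x + (A (max x 0) - A (c x)) with hZ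
  have hmaxl : LipschitzWith 1 fun x : ℝ => max x 0 := by
    simpa using (LipschitzWith.id (α := ℝ)).max_const 0
  have hZl : ∃ K : ℝ≥0, LipschitzWith K Z := by
    obtain ⟨K, hK⟩ := hZZl
    exact ⟨_, hK.add ((hAl.comp hmaxl).sub hAcl)⟩
  -- bounds of `Z`
  have hZZ0 : ∀ x ≤ 0, ZZ x = 0 := by
    intro x hx
    have e : ∀ j, L j x = 0 := fun j => by
      show (A (c x) - g j (c x)) / r j ^ 3 = 0
      rw [hc0 x hx, hA0, hg0, sub_zero, zero_div]
    obtain ⟨j, hj⟩ := hmmex x
    show max (A (c x) - zl) (mm x) = 0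
    rw [hj, e j, hc0 x hx, hA0, zero_sub]
    exact max_eq_right (by linarith)
  have hZ0 : ∀ x ≤ 0, Z x = 0 := by
    intro x hx
    show ZZ x + (A (max x 0) - A (c x)) = 0
    rw [hZZ0 x hx, max_eq_right hx, hc0 x hx]
    ring
  have hZx : ∀ x ∈ Icc 0 Y, Z x = ZZ x := by
    intro x hx
    show ZZ x + (A (max x 0) - A (c x)) = ZZ x
    rw [max_eq_left hx.1, hcx x hx]
    ring
  have hZY : ∀ x, Y ≤ x → Z x = ZZ Y + (A x - A Y) := by
    intro x hx
    have e1 : ZZ x = ZZ Y := by
      have e2 : ∀ j, L j x = L j Y := fun j => by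
        show (A (c x) - g j (c x)) / r j ^ 3 = (A (c Y) - g j (c Y)) / r j ^ 3
        rw [hcY x hx, hcY Y le_rfl]
      show max (A (c x) - zl) (Finset.univ.inf' Finset.univ_nonempty fun j => L j x) =
        max (A (c Y) - zl) (Finset.univ.inf' Finset.univ_nonempty fun j => L j Y)
      simp only [e2, hcY x hx, hcY Y le_rfl]
    show ZZ x + (A (max x 0) - A (c x)) = _
    rw [e1, hcY x hx, max_eq_left (hY.le.trans hx)]
  have hAc0 : ∀ x, 0 ≤ A (c x) := fun x => by
    rw [← hA0]; exact hAm (hcm x).1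
  have hZlow : ∀ x, -zl ≤ Z x := by
    intro x
    have h3 : A (c x) - zl ≤ ZZ x := le_max_left _ _
    have h4 : A (c x) ≤ A (max x 0) := by
      apply hAm
      exact max_le (le_max_right _ _) ((min_le_left _ _).trans (le_max_left _ _))
    show -zl ≤ ZZ x + (A (max x 0) - A (c x))
    linarith [hAc0 x]
  have hZZA : ∀ x, ZZ x ≤ A (c x) := by
    intro x
    refine max_le (by linarith) ?_
    refine (hmmle j0 x).trans ?_
    show (A (c x) - g j0 (c x)) / r j0 ^ 3 ≤ A (c x)
    rw [hj0, hj0', sub_zero, one_pow, div_one]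
  have hAcY : ∀ x, A (c x) ≤ A Y := fun x => hAm (hcm x).2
  set z2 : ℝ := ZZ Y + AI - A Y with hz2
  have hz21 : z2 < 1 := by
    have h3 : ZZ Y = A Y - zl ∨ ZZ Y = mm Y := by
      have h4 : ZZ Y = max (A (c Y) - zl) (mm Y) := rfl
      rw [hcY Y le_rfl] at h4
      rcases max_choice (A Y - zl) (mm Y) with h | h
      · left; rw [h4, h]
      · right; rw [h4, h]
    rcases h3 with h3 | h3
    · rw [hz2, h3]; linarith
    · have hlow : -zl ≤ ZZ Y := by
        have : A (c Y) - zl ≤ ZZ Y := le_max_left _ _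
        linarith [hAc0 Y]
      have hup : ZZ Y ≤ 1 := by
        have := hZZA Y
        rw [hcY Y le_rfl] at this
        linarith
      obtain ⟨j, hj⟩ := hterm (ZZ Y) hlow hup
      have h5 : r j ^ 3 * ZZ Y + g j Y ≤ A Y := by
        have h6 := hmmle j Y
        rw [← h3] at h6
        have h7 : ZZ Y ≤ (A Y - g j Y) / r j ^ 3 := by
          have e : L j Y = (A (c Y) - g j (c Y)) / r j ^ 3 := rfl
          rw [hcY Y le_rfl] at e
          rw [← e]
          exact h6
        rw [le_div_iff₀ (hr3 j)] at h7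
        linarith
      have h8 := mul_le_mul_of_nonneg_left h5 (by linarith : (0 : ℝ) ≤ 1 + s)
      rw [hz2]
      linarith
  set zm : ℝ := max (A Y) z2 with hzm
  have hzm1 : zm < 1 := max_lt hAY1 hz21
  have hZup : ∀ x, Z x ≤ zm := by
    intro x
    rcases le_total x 0 with h | h
    · rw [hZ0 x h]
      exact (by rw [← hA0]; exact hAm hY.le : (0 : ℝ) ≤ A Y).trans (le_max_left _ _)
    · rcases le_total x Y with h' | h'
      · rw [hZx x ⟨h, h'⟩]
        exact ((hZZA x).trans (hAcY x)).trans (le_max_left _ _)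
      · rw [hZY x h']
        refine le_trans ?_ (le_max_right _ _)
        rw [hz2]
        linarith [hAle x]
  have hIn : ∀ x, Z x ∈ Icc (-zl) zm := fun x => ⟨hZlow x, hZup x⟩
  -- the function `G`
  set Γ : ℝ → ℝ := fun z => z / Real.sqrt (1 - z ^ 2) with hΓ
  have hpos : ∀ z ∈ Icc (-zl) zm, 0 < 1 - z ^ 2 := by
    intro z hz
    have h3 : -1 < z := by linarith [hz.1]
    have h4 : z < 1 := lt_of_le_of_lt hz.2 hzm1
    nlinarith
  have hΓc : ContDiffOn ℝ 1 Γ (Icc (-zl) zm) := by
    intro z hz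
    have h3 := hpos z hz
    have h4 : ContDiffAt ℝ 1 (fun z : ℝ => 1 - z ^ 2) z := by fun_prop
    exact (contDiffAt_id.div (h4.sqrt h3.ne') (Real.sqrt_pos.2 h3).ne').contDiffWithinAt
  obtain ⟨CΓ, hCΓ⟩ := hΓc.exists_lipschitzOnWith one_ne_zero (convex_Icc _ _) isCompact_Icc
  refine ⟨fun x => Γ (Z x), ?_, ?_, ?_⟩
  · obtain ⟨K, hK⟩ := hZl
    refine ⟨CΓ * K, ?_⟩
    rw [← lipschitzOnWith_univ]
    exact hCΓ.comp (hK.lipschitzOnWith (s := univ)) fun x _ => hIn x
  · intro x hx
    show Γ (Z x) = 0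
    rw [hZ0 x hx]
    simp [hΓ]
  · obtain ⟨KZ, hKZ⟩ := hZl
    obtain ⟨KZZ, hKZZ⟩ := hZZl
    have hYae : ∀ᵐ x : ℝ, x ≠ Y := by
      rw [ae_iff]; simp
    filter_upwards [_root_.LocallyIntegrable.ae_hasDerivAt_integral hloc, hmml.ae_differentiableAt (μ := volume),
      hKZZ.ae_differentiableAt (μ := volume), hKZ.ae_differentiableAt (μ := volume), hYae]
      with x hx1 hx2 hx3 hx4 hx5 hx0 hax
    have hAx : HasDerivAt A (a x / kap) x := (hx1 0).div_const kap
    have hz := hIn x
    have hz1 : -1 < Z x := by linarith [hz.1]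
    have hz1' : Z x < 1 := lt_of_le_of_lt hz.2 hzm1
    have hp := hpos _ hz
    set cc := Real.sqrt (1 - Z x ^ 2) with hcc
    have hcc0 : 0 < cc := Real.sqrt_pos.2 hp
    have hcc2 : cc ^ 2 = 1 - Z x ^ 2 := Real.sq_sqrt hp.le
    have hGd : deriv (fun x => Γ (Z x)) x = 1 / cc ^ 3 * deriv Z x :=
      ((gam_deriv hz1 hz1').comp x hx4.hasDerivAt).deriv
    -- the main inequality
    have hunit : cc - Real.pi ^ 2 * cc ^ 3 / a x ^ 2 ≤ a x / kap := by
      have := amgm (r := 1) one_pos hcc0 hax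
      linarith
    have hmain : cc - Real.pi ^ 2 * cc ^ 3 / a x ^ 2 ≤ deriv Z x := by
      rcases lt_or_gt_of_ne hx5 with hlt | hgt
      · have hnear : ∀ᶠ y in 𝓝 x, y ∈ Icc 0 Y :=
          Icc_mem_nhds hx0 hlt
        have hxI : x ∈ Icc 0 Y := ⟨hx0.le, hlt.le⟩
        have hZd : deriv Z x = deriv ZZ x := by
          refine Filter.EventuallyEq.deriv_eq ?_
          filter_upwards [hnear] with y hy
          exact hZx y hy
        rw [hZd]
        have hLd : ∀ j, HasDerivAt (L j) ((a x / kap - g' j x) / r j ^ 3) x := by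
          intro j
          have h3 : HasDerivAt (fun y => (A y - g j y) / r j ^ 3)
              ((a x / kap - g' j x) / r j ^ 3) x := (hAx.sub (hg j x)).div_const _
          refine h3.congr_of_eventuallyEq ?_
          filter_upwards [hnear] with y hy
          show (A (c y) - g j (c y)) / r j ^ 3 = _
          rw [hcx y hy]
        rcases max_choice (A (c x) - zl) (mm x) with h | h
        · have h3 : HasDerivAt (fun y => A y - zl) (a x / kap) x := hAx.sub_const zl
          have h4 : deriv ZZ x = a x / kap := by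
            refine touch' hx3 h3 ?_ ?_
            · filter_upwards [hnear] with y hy
              have : A (c y) - zl ≤ ZZ y := le_max_left _ _
              rwa [hcx y hy] at this
            · show max (A (c x) - zl) (mm x) = A x - zl
              rw [h, hcx x hxI]
          rw [h4]
          exact hunit
        · have h4 : deriv ZZ x = deriv mm x := by
            refine touch' hx3 hx2.hasDerivAt ?_ h
            exact Eventually.of_forall fun y => le_max_right _ _
          obtain ⟨j, hj⟩ := hmmex x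
          have h5 : deriv mm x = (a x / kap - g' j x) / r j ^ 3 :=
            touch hx2 (hLd j) (Eventually.of_forall fun y => hmmle j y) hj
          have hZm : Z x = mm x := by
            rw [hZx x hxI]
            exact h
          have hLx : ∀ i, L i x = (A x - g i x) / r i ^ 3 := fun i => by
            show (A (c x) - g i (c x)) / r i ^ 3 = _
            rw [hcx x hxI]
          have h6 : r j ^ 3 * Z x + g j x = A x := by
            rw [hZm, hj, hLx j, mul_div_cancel₀ _ (hr3 j).ne']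
            ring
          have h7 := hact j x hxI (Z x) hz.1 hz1' (fun i => by
            rw [h6]
            have h8 := hmmle i x
            rw [← hZm, hLx i, le_div_iff₀ (hr3 i)] at h8
            linarith)
          rw [← hcc] at h7
          have h9 := amgm (hr j) hcc0 hax
          rw [h4, h5, le_div_iff₀ (hr3 j)]
          nlinarith [h7, h9]
      · have hZd : HasDerivAt Z (a x / kap) x := by
          have h3 : HasDerivAt (fun y => ZZ Y + (A y - A Y)) (a x / kap) x :=
            (hAx.sub_const (A Y)).const_add (ZZ Y)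
          refine h3.congr_of_eventuallyEq ?_
          filter_upwards [lt_mem_nhds hgt] with y hy
          exact hZY y hy.le
        rw [hZd.deriv]
        exact hunit
    rw [hGd]
    have e1 : Γ (Z x) ^ 2 = Z x ^ 2 / cc ^ 2 := by
      show (Z x / cc) ^ 2 = _
      rw [div_pow]
    have e2 : 1 + Z x ^ 2 / cc ^ 2 = 1 / cc ^ 2 := by
      rw [eq_div_iff (by positivity), add_mul, div_mul_cancel₀ _ (by positivity), hcc2]
      ring
    rw [e1, e2]
    have h10 := mul_le_mul_of_nonneg_left hmain (by positivity : 0 ≤ 1 / cc ^ 3)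
    refine le_trans (le_of_eq ?_) h10
    field_simp

end PL3
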