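import Pool.Agent.Lib.PL3.Vert
import Pool.Agent.Lib.DK4.Iso

/-!
Module PL3.Core: invariance of `NegT` under isometries, and the lower bound of the area for `Λ = 1`.

`negT_iso`: `u ↦ u ∘ L` (`IsoAux.incl` in DK4.Iso does the same for `dirEig`): test functions of `L ⁻¹' Ω`,
`uc (fun j => w j ∘ L) c = uc w c ∘ L`, `en Λ univ u = q Λ u` (`q_eq_integral`), `InvAux.qL`.
`core`: `vert` for `Ω` gives `t`.  Let `L : ℂ ≃ₗᵢ[ℝ] ℂ` be the multiplication by `I` (`InvAux.exists_rot`);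
`Ω' = L ⁻¹' Ω`; `vert` for `Ω'` gives `t'`; `volume.real Ω' = volume.real Ω`, and
`volume.real (Ω' ∩ {|re - t'| ≤ Y}) = volume.real (Ω ∩ {|im - t'| ≤ Y})` (if `L z = I z`, `(L z).im = z.re`).
So with `X = Ω ∩ {|re - t| ≤ Y}`, `X' = Ω ∩ {|im - t'| ≤ Y}`:
`|X| + |X'| = |X ∪ X'| + |X ∩ X'| ≤ |Ω| + 4 Y²` (the square; `volume` of a rectangle in ℂ:
`Complex.volume_preserving_equiv_real_prod`, `measureReal_union_add_inter`).  If both second alternatives hold,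
`8 kap W ≤ 2 |Ω| + s (|Ω| + 4 Y²)`.
-/

open MeasureTheory Set
open scoped ContDiff NNReal

namespace PL3

open DK4 PL4

theorem negT_iso (L : ℂ ≃ₗᵢ[ℝ] ℂ) {Ω : Set ℂ} {Λ : ℝ} {n : ℕ} (h : NegT Ω Λ n univ) :
    NegT (L ⁻¹' Ω) Λ n univ := by
  obtain ⟨w, hw, hneg⟩ := h
  refine ⟨fun j z => w j (L z), fun j => ?_, fun c hc => ?_⟩
  · obtain ⟨c1, c2, c3⟩ := hw j
    have hts : tsupport (fun z => w j (L z)) = L ⁻¹' tsupport (w j) :=
      tsupport_comp_eq_preimage (w j) L.toHomeomorph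
    refine ⟨c1.comp L.contDiff, ?_, ?_⟩
    · change IsCompact (tsupport (fun z => w j (L z)))
      rw [hts]
      exact L.toHomeomorph.isClosedEmbedding.isCompact_preimage c2
    · rw [hts]
      exact preimage_mono c3
  · have h1 : en Λ univ (uc (fun j z => w j (L z)) c) = en Λ univ (uc w c) := by
      have h2 : uc (fun j z => w j (L z)) c = fun z => uc w c (L z) := rfl
      rw [h2, en, en, setIntegral_univ, setIntegral_univ,
        ← InvAux.integ L (fun z => ‖fderiv ℝ (uc w c) z‖ ^ 2 - Λ * uc w c z ^ 2)]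
      congr 1
      funext z
      rw [InvAux.fd]
    rw [h1]
    exact hneg c hc

namespace CoreAux

theorem vol_lie (L : ℂ ≃ₗᵢ[ℝ] ℂ) (S : Set ℂ) : volume (L ⁻¹' S) = volume S :=
  (L.measurePreserving).measure_preimage_emb (InvAux.emb L) S

theorem vol_sq {t t' Y : ℝ} (hY : 0 < Y) :
    volume {z : ℂ | |z.re - t| ≤ Y ∧ |z.im - t'| ≤ Y} = ENNReal.ofReal (4 * Y ^ 2) := by
  have h1 : {z : ℂ | |z.re - t| ≤ Y ∧ |z.im - t'| ≤ Y} =
      Complex.measurableEquivRealProd ⁻¹' (Icc (t - Y) (t + Y) ×ˢ Icc (t' - Y) (t' + Y)) := by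
    ext z
    simp only [mem_ofPred_eq, mem_preimage, mem_prod, mem_Icc, Complex.measurableEquivRealProd_apply,
      abs_le]
    constructor
    · rintro ⟨⟨a, b⟩, c, d⟩
      exact ⟨⟨by linarith, by linarith⟩, by linarith, by linarith⟩
    · rintro ⟨⟨a, b⟩, c, d⟩
      exact ⟨⟨by linarith, by linarith⟩, by linarith, by linarith⟩
  rw [h1, Complex.volume_preserving_equiv_real_prod.measure_preimage_equiv, Measure.volume_eq_prod,
    Measure.prod_prod, Real.volume_Icc, Real.volume_Icc, ← ENNReal.ofReal_mul (by linarith)]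
  congr 1
  ring

end CoreAux

open CoreAux

theorem core {Y s zl W : ℝ} (hC : Cert Y s zl W) (hs : 0 ≤ s) (hY : 0 < Y) {Ω : Set ℂ}
    (hΩ : IsOpen Ω) (hfin : volume Ω ≠ ⊤) (h : NegT Ω 1 3 univ) :
    kap * (1 + zl) + 3 * (Real.pi * j01 ^ 2 / 2) ≤ volume.real Ω ∨
      8 * (kap * W) ≤ (2 + s) * volume.real Ω + 4 * s * Y ^ 2 := by
  obtain ⟨t, h1⟩ := vert hC hs hΩ hfin h
  obtain ⟨L, hL⟩ := InvAux.exists_rot Complex.norm_I
  have hΩ' : IsOpen (L ⁻¹' Ω) := hΩ.preimage L.continuous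
  have hfin' : volume (L ⁻¹' Ω) ≠ ⊤ := by rwa [vol_lie]
  obtain ⟨t', h2⟩ := vert hC hs hΩ' hfin' (negT_iso L h)
  have hr : volume.real (L ⁻¹' Ω) = volume.real Ω := by
    rw [measureReal_def, measureReal_def, vol_lie]
  have hX' : volume.real (L ⁻¹' Ω ∩ {z | |z.re - t'| ≤ Y}) =
      volume.real (Ω ∩ {z | |z.im - t'| ≤ Y}) := by
    have e : L ⁻¹' Ω ∩ {z | |z.re - t'| ≤ Y} = L ⁻¹' (Ω ∩ {z | |z.im - t'| ≤ Y}) := by
      ext z
      have h3 : (L z).im = z.re := by rw [hL]; simp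
      simp only [mem_inter_iff, mem_preimage, mem_ofPred_eq, h3]
    rw [e, measureReal_def, measureReal_def, vol_lie]
  rw [hr, hX'] at h2
  rcases h1 with h1 | h1
  · exact Or.inl h1
  rcases h2 with h2 | h2
  · exact Or.inl h2
  right
  have hm : MeasurableSet (Ω ∩ {z : ℂ | |z.im - t'| ≤ Y}) := by
    refine hΩ.measurableSet.inter (IsClosed.measurableSet ?_)
    exact isClosed_le (by fun_prop) continuous_const
  have hf1 : volume (Ω ∩ {z : ℂ | |z.re - t| ≤ Y}) ≠ ⊤ :=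
    ne_top_of_le_ne_top hfin (measure_mono inter_subset_left)
  have hf2 : volume (Ω ∩ {z : ℂ | |z.im - t'| ≤ Y}) ≠ ⊤ :=
    ne_top_of_le_ne_top hfin (measure_mono inter_subset_left)
  have hui := measureReal_union_add_inter (μ := (volume : Measure ℂ))
    (s := Ω ∩ {z : ℂ | |z.re - t| ≤ Y}) hm hf1 hf2
  have hu : volume.real (Ω ∩ {z : ℂ | |z.re - t| ≤ Y} ∪ Ω ∩ {z : ℂ | |z.im - t'| ≤ Y}) ≤
      volume.real Ω := by
    refine measureReal_mono ?_ hfin
    exact union_subset inter_subset_left inter_subset_left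
  have hi : volume.real ((Ω ∩ {z : ℂ | |z.re - t| ≤ Y}) ∩ (Ω ∩ {z : ℂ | |z.im - t'| ≤ Y})) ≤
      4 * Y ^ 2 := by
    have hsq := vol_sq (t := t) (t' := t') hY
    have e2 : volume.real {z : ℂ | |z.re - t| ≤ Y ∧ |z.im - t'| ≤ Y} = 4 * Y ^ 2 := by
      rw [measureReal_def, hsq, ENNReal.toReal_ofReal (by positivity)]
    rw [← e2]
    refine measureReal_mono ?_ (by rw [hsq]; exact ENNReal.ofReal_ne_top)
    rintro z ⟨⟨-, a⟩, -, b⟩
    exact ⟨a, b⟩
  have h5 : s * (volume.real (Ω ∩ {z : ℂ | |z.re - t| ≤ Y}) +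
      volume.real (Ω ∩ {z : ℂ | |z.im - t'| ≤ Y})) ≤ s * (volume.real Ω + 4 * Y ^ 2) :=
    mul_le_mul_of_nonneg_left (by linarith) hs
  nlinarith [h1, h2, h5]

end PL3
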