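import Pool.Agent.Lib.PL4.Defs
import Pool.Agent.Lib.DK4.Num

/-!
# PL3 : a lower bound for the third Dirichlet eigenvalue, for `λ₄` of disconnected sets (MP_6da7ef_an)

THEOREM C.  Let `Ω₁, Ω₂ ⊂ ℂ` be disjoint nonempty open sets of finite area, `Ω = Ω₁ ∪ Ω₂`, with
`λ₁(Ω_i) ≤ λ₄(Ω)`, `i = 1, 2`.  Then `λ₄(Ω) |Ω| ≥ π j01² + 12 π`.
LEMMA.  `Λ |Ω| ≥ 12 π` if `NegT Ω Λ 3 univ` (so `λ₃(Ω) |Ω| ≥ 12 π` for every open `Ω` of finite area).

PLAN OF THE PROOF OF THE LEMMA.  By scaling `Λ = 1`.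
(1) (PL4.Cut) there is a vertical line `x = t` such that both half planes have index at least two.
(2) (PL4.Two) by the sign trick there are in each half plane two functions `f, g ≥ 0` with disjoint positivity sets
    and negative energy on the half plane (pieces).  So a vertical line gives 4 disjoint pieces, and a
    horizontal line also gives 4 disjoint pieces.
(3) (Piece) a piece `D` satisfies `|D| ≥ κ (1 + zl)` or `|D| + s |D ∩ strip of width Y| ≥ κ W`, `κ = 3√3π/2`.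
    This follows from the one-dimensional Faber-Krahn inequality on the sections parallel to the line
    and a Riccati certificate `G` (`Cert`).
(4) (PL4.Cell) Faber-Krahn for the half plane: `|D| ≥ π j01²/2` for each piece.
(5) (Vert, Core) if one piece has `|D| ≥ κ (1 + zl)` then `|Ω| ≥ κ (1 + zl) + 3 π j01²/2`; otherwise
    `|Ω| + s |Ω ∩ {|x - t| ≤ Y}| ≥ 4 κ W` and `|Ω| + s |Ω ∩ {|y - t'| ≤ Y}| ≥ 4 κ W`, and as the two strips meet in
    a square of area `4 Y²`, `(2 + s) |Ω| + 4 s Y² ≥ 8 κ W`.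
With `s = 3`, `Y = 2`, `zl = 0.294`, `W = 3.6335` both cases give `|Ω| ≥ 12 π`.
-/

open MeasureTheory Set
open scoped ContDiff NNReal

namespace PL3

open DK4 PL4

/-- `κ = 3√3 π / 2`, the least area of a piece in the sectionwise reduction. -/
noncomputable def kap : ℝ := 3 * Real.sqrt 3 * Real.pi / 2

/-- the strip of width `Y` on the side `σ` of the line `x = t` -/
def St (Y t σ : ℝ) : Set ℂ := {z | 0 < σ * (z.re - t) ∧ σ * (z.re - t) ≤ Y}

/-- The one-dimensional certificate: for every section function `a` on the half line with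
`∫ a < κ (1 + zl)` and `∫ a + s ∫_(0,Y] a < κ W` there is a Lipschitz function `G`, zero on the
negative half line, with `G' ≥ 1 + G² - π²/a²` at almost every `x > 0` with `a x > 0`. -/
def Cert (Y s zl W : ℝ) : Prop :=
  ∀ a : ℝ → ℝ, Measurable a → (∀ x, 0 ≤ a x) → (∃ M, ∀ x, a x ≤ M) → (∃ R, ∀ x, R < x → a x = 0) →
    ∫ x in Ioi 0, a x < kap * (1 + zl) →
    (∫ x in Ioi 0, a x) + s * ∫ x in Ioc 0 Y, a x < kap * W →
    ∃ G : ℝ → ℝ, (∃ K : ℝ≥0, LipschitzWith K G) ∧ (∀ x ≤ 0, G x = 0) ∧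
      ∀ᵐ x : ℝ, 0 < x → 0 < a x → 1 + G x ^ 2 - Real.pi ^ 2 / (a x) ^ 2 ≤ deriv G x

end PL3
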