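import Pool.Agent.Lib.PL3.Final
import Pool.Agent.Lib.PL4.Main

/-!
Module PL3.Disc: Theorem C, `λ₄` of sets with two parts.

`split`: `w : Fin n → ℂ → ℝ` test functions of `Ω₁ ∪ Ω₂` (disjoint, open).  `w1 j = Ω₁.indicator (w j)` is a test function
of `Ω₁`: near a point of `Ω₁` it is `w j`, near a point outside `tsupport (w j)` it is `0`, near a point of `Ω₂` it
is `0`; `tsupport (w1 j) ⊆ tsupport (w j) ∩ Ω₁ᶜᶜ ...`: `tsupport (w j) \ Ω₂` is closed and contains the support.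
`q Λ (uc w c) = q Λ (uc w1 c) + q Λ (uc w2 c)` (at each point one of the two is locally zero).  `PL4.la` with
`B c d = ∑ i j, c i * CutAux.be Λ w1 univ i j * d j` (`CutAux.en_eq`, `CutAux.be_symm`) and `Q c = q Λ (uc w2 c)`.
`one`, `two'`: `NegT Ω Λ 1 univ` gives `π j01² ≤ Λ |Ω|` (`q_split`, one of `u⁺, u⁻` is negative, `FK4.fk`);
`NegT Ω Λ 2 univ` gives `2 π j01² ≤ Λ |Ω|` (`PL4.two`).
`disc4`: `split` with `(k1, k2) = (2, 3)` and `(3, 2)`; cases: `NegT Ω₁ Λ 3`: `12 π + π j01²`; `NegT Ω₂ Λ 3` the same; otherwise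
`NegT Ω₁ Λ 2` and `NegT Ω₂ Λ 2`: `4 π j01² ≥ π j01² + 12 π` (`j01_gt`).
`eigC`: as in `DK4.eig_bound`.
-/

open MeasureTheory Set
open scoped ContDiff NNReal

namespace PL3

open DK4 PL4

namespace DiscAux

theorem test_ind {Ω₁ Ω₂ : Set ℂ} (h1 : IsOpen Ω₁) (h2 : IsOpen Ω₂) (hd : Disjoint Ω₁ Ω₂)
    {u : ℂ → ℝ} (hu : IsTest (Ω₁ ∪ Ω₂) u) : IsTest Ω₁ (Ω₁.indicator u) := by
  have hK : IsClosed (tsupport u ∩ Ω₂ᶜ) := (isClosed_tsupport u).inter h2.isClosed_compl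
  have hsub : tsupport (Ω₁.indicator u) ⊆ tsupport u ∩ Ω₂ᶜ := by
    refine closure_minimal (fun z hz => ?_) hK
    have hz1 : z ∈ Ω₁ := mem_of_indicator_ne_zero hz
    have hz2 : u z ≠ 0 := by
      have := hz
      rwa [Function.mem_support, indicator_of_mem hz1] at this
    exact ⟨subset_tsupport _ hz2, fun h => disjoint_left.1 hd hz1 h⟩
  have hsub' : tsupport (Ω₁.indicator u) ⊆ Ω₁ := fun z hz => by
    obtain ⟨h3, h4⟩ := hsub hz
    rcases hu.2.2 h3 with h | h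
    · exact h
    · exact absurd h h4
  refine ⟨?_, ?_, hsub'⟩
  · rw [contDiff_iff_contDiffAt]
    intro z
    by_cases hz : z ∈ Ω₁
    · have e : Ω₁.indicator u =ᶠ[nhds z] u := by
        filter_upwards [h1.mem_nhds hz] with y hy
        exact indicator_of_mem hy _
      exact hu.1.contDiffAt.congr_of_eventuallyEq e
    · have hz' : z ∉ tsupport (Ω₁.indicator u) := fun h => hz (hsub' h)
      have e : Ω₁.indicator u =ᶠ[nhds z] 0 := notMem_tsupport_iff_eventuallyEq.1 hz'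
      exact contDiffAt_const.congr_of_eventuallyEq e
  · exact hu.2.1.isCompact.of_isClosed_subset (isClosed_tsupport _)
      (hsub.trans inter_subset_left)

theorem en_ind {Ω₁ Ω₂ : Set ℂ} (h1 : IsOpen Ω₁) (h2 : IsOpen Ω₂) (hd : Disjoint Ω₁ Ω₂)
    {u : ℂ → ℝ} (hu : IsTest (Ω₁ ∪ Ω₂) u) (Λ : ℝ) :
    en Λ univ (Ω₁.indicator u) = en Λ Ω₁ u := by
  unfold en
  rw [Measure.restrict_univ, ← integral_indicator h1.measurableSet]
  congr 1
  funext z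
  by_cases hz : z ∈ Ω₁
  · have e : Ω₁.indicator u =ᶠ[nhds z] u := by
      filter_upwards [h1.mem_nhds hz] with y hy
      exact indicator_of_mem hy _
    rw [indicator_of_mem hz (f := fun z => ‖fderiv ℝ u z‖ ^ 2 - Λ * u z ^ 2), e.fderiv_eq,
      indicator_of_mem hz]
  · have hz' : z ∉ tsupport (Ω₁.indicator u) := fun h => hz ((test_ind h1 h2 hd hu).2.2 h)
    rw [indicator_of_notMem hz (f := fun z => ‖fderiv ℝ u z‖ ^ 2 - Λ * u z ^ 2),
      fderiv_of_notMem_tsupport ℝ hz', indicator_of_notMem hz]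
    simp

theorem dens_int {Ω : Set ℂ} {u : ℂ → ℝ} (hu : IsTest Ω u) (Λ : ℝ) :
    Integrable fun z => ‖fderiv ℝ u z‖ ^ 2 - Λ * u z ^ 2 :=
  hu.adm.integrable_en.sub (hu.adm.integrable_sq.const_mul Λ)

theorem en_add {Ω₁ Ω₂ : Set ℂ} (h2 : IsOpen Ω₂) (hd : Disjoint Ω₁ Ω₂)
    {u : ℂ → ℝ} (hu : IsTest (Ω₁ ∪ Ω₂) u) (Λ : ℝ) :
    en Λ univ u = en Λ Ω₁ u + en Λ Ω₂ u := by
  unfold en
  rw [← setIntegral_union hd h2.measurableSet (dens_int hu Λ).integrableOn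
    (dens_int hu Λ).integrableOn, Measure.restrict_univ]
  refine (setIntegral_eq_integral_of_forall_compl_eq_zero fun z hz => ?_).symm
  have hz' : z ∉ tsupport u := fun h => hz (hu.2.2 h)
  rw [fderiv_of_notMem_tsupport ℝ hz', image_eq_zero_of_notMem_tsupport hz']
  simp

theorem uc_ind {n : ℕ} (S : Set ℂ) (w : Fin n → ℂ → ℝ) (c : Fin n → ℝ) :
    uc (fun j => S.indicator (w j)) c = S.indicator (uc w c) := by
  funext z
  by_cases hz : z ∈ S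
  · simp [uc, hz]
  · simp [uc, hz]

theorem vol_le {Ω : Set ℂ} (hfin : volume Ω ≠ ⊤) {f : ℂ → ℝ} (hf : ∀ z, z ∉ Ω → f z = 0) :
    volume.real {z | 0 < f z} ≤ volume.real Ω := by
  refine measureReal_mono (fun z hz => ?_) hfin
  by_contra h
  have h' : 0 < f z := hz
  rw [hf z h] at h'
  exact lt_irrefl _ h'

/-- `NegT` from a value above the bottom of the spectrum -/
theorem negT_one {Ω : Set ℂ} (hΩ : IsOpen Ω) (hne : Ω.Nonempty) {Λ : ℝ} (h : dirEig 1 Ω < Λ) :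
    NegT Ω Λ 1 univ := by
  unfold dirEig at h
  obtain ⟨μ, ⟨V, hV, hVt, hq⟩, hμ⟩ := exists_lt_of_csInf_lt (exists_space 1 hΩ hne) h
  refine negT_of_space V hV hVt fun u hu hu0 => ?_
  have h3 := hq u hu
  have h4 := integral_sq_pos (hVt u hu) hu0
  unfold q
  nlinarith

end DiscAux

open DiscAux CutAux

theorem split {Ω₁ Ω₂ : Set ℂ} (h1 : IsOpen Ω₁) (h2 : IsOpen Ω₂) (hd : Disjoint Ω₁ Ω₂) {Λ : ℝ}
    {n k1 k2 : ℕ} (hk : k1 + k2 = n + 1) (h : NegT (Ω₁ ∪ Ω₂) Λ n univ) :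
    NegT Ω₁ Λ k1 univ ∨ NegT Ω₂ Λ k2 univ := by
  obtain ⟨w, hw, hneg⟩ := h
  have hwd : ∀ j, ContDiff ℝ ∞ (w j) := fun j => (hw j).1
  have hwc : ∀ j, HasCompactSupport (w j) := fun j => (hw j).2.1
  have hd' : Disjoint Ω₂ Ω₁ := hd.symm
  have hw' : ∀ c, IsTest (Ω₂ ∪ Ω₁) (uc w c) := fun c => by
    rw [union_comm]
    exact uc_test hw c
  have hB := la hk (Matrix.toBilin' (Matrix.of fun i j => be Λ w Ω₁ i j))
      (fun a b => by
        rw [Matrix.toBilin'_apply, Matrix.toBilin'_apply, Finset.sum_comm]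
        refine Finset.sum_congr rfl fun i _ => Finset.sum_congr rfl fun j _ => ?_
        rw [Matrix.of_apply, Matrix.of_apply, be_symm]
        ring)
      (fun c => en Λ Ω₂ (uc w c)) (fun c hc => by
        rw [Matrix.toBilin'_apply]
        have e := en_eq (Λ := Λ) hwd hwc c Ω₁
        simp only [Matrix.of_apply]
        rw [← e, ← en_add h2 hd (uc_test hw c)]
        exact hneg c hc)
  rcases hB with ⟨A, hA⟩ | ⟨A, hA⟩
  · left
    refine ⟨fun l => uc (fun j => Ω₁.indicator (w j)) (A l),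
      fun l => uc_test (fun j => test_ind h1 h2 hd (hw j)) _, fun c hc => ?_⟩
    rw [uc_comp, uc_ind, en_ind h1 h2 hd (uc_test hw _), en_eq hwd hwc]
    have h3 := hA c hc
    rw [Matrix.toBilin'_apply] at h3
    simpa only [Matrix.of_apply] using h3
  · right
    have hw2 : ∀ j, IsTest (Ω₂ ∪ Ω₁) (w j) := fun j => by
      rw [union_comm]
      exact hw j
    refine ⟨fun l => uc (fun j => Ω₂.indicator (w j)) (A l),
      fun l => uc_test (fun j => test_ind h2 h1 hd' (hw2 j)) _, fun c hc => ?_⟩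
    rw [uc_comp, uc_ind, en_ind h2 h1 hd' (hw' _)]
    exact hA c hc

theorem one {Ω : Set ℂ} (hΩ : IsOpen Ω) (hfin : volume Ω ≠ ⊤) {Λ : ℝ} (hΛ : 0 < Λ)
    (h : NegT Ω Λ 1 univ) : Real.pi * j01 ^ 2 ≤ Λ * volume.real Ω := by
  obtain ⟨w, hw, hneg⟩ := h
  have hu : IsTest Ω (uc w 1) := uc_test hw 1
  have hq : q Λ (uc w 1) < 0 := by
    have h3 := hneg 1 one_ne_zero
    unfold en at h3
    rw [Measure.restrict_univ] at h3
    rw [q_eq_integral hu.adm]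
    exact h3
  have hz : ∀ z, z ∉ Ω → uc w 1 z = 0 := fun z hz =>
    image_eq_zero_of_notMem_tsupport fun h => hz (hu.2.2 h)
  rw [q_split hu.adm] at hq
  have key : ∀ f : ℂ → ℝ, Adm f → (∀ z, 0 ≤ f z) → (∀ z, z ∉ Ω → f z = 0) → q Λ f < 0 →
      Real.pi * j01 ^ 2 ≤ Λ * volume.real Ω := fun f hf h0 hf0 hfq =>
    (FK4.fk hf h0 hfq).trans (mul_le_mul_of_nonneg_left (vol_le hfin hf0) hΛ.le)
  by_cases hc : q Λ (fun z => max (uc w 1 z) 0) < 0
  · exact key _ hu.adm.pos (fun z => le_max_right _ _) (fun z h => by rw [hz z h, max_self]) hc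
  · exact key _ hu.adm.neg.pos (fun z => le_max_right _ _)
      (fun z h => by rw [hz z h, neg_zero, max_self]) (by linarith)

theorem two' {Ω : Set ℂ} (hΩ : IsOpen Ω) (hfin : volume Ω ≠ ⊤) {Λ : ℝ} (hΛ : 0 < Λ)
    (h : NegT Ω Λ 2 univ) : 2 * (Real.pi * j01 ^ 2) ≤ Λ * volume.real Ω := by
  obtain ⟨f, g, hf, hg, f0, g0, hfg, hout, ef, eg⟩ := two MeasurableSet.univ h
  have eq : ∀ u : ℂ → ℝ, Adm u → en Λ univ u = q Λ u := fun u hu => by
    unfold en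
    rw [Measure.restrict_univ, q_eq_integral hu]
  rw [eq f hf] at ef
  rw [eq g hg] at eg
  have k1 := FK4.fk hf f0 ef
  have k2 := FK4.fk hg g0 eg
  have hsub : ∀ u : ℂ → ℝ, (∀ z, z ∉ Ω → u z = 0) → {z | 0 < u z} ⊆ Ω := fun u hu z hz => by
    by_contra h
    have h' : 0 < u z := hz
    rw [hu z h] at h'
    exact lt_irrefl _ h'
  have k3 := MainAux.real_two hfin (hsub f fun z hz => (hout z hz).1)
    (hsub g fun z hz => (hout z hz).2) (by
      rw [disjoint_left]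
      intro z hz1 hz2
      have h3 : 0 < f z := hz1
      have h4 : 0 < g z := hz2
      rcases hfg z with h | h
      · exact h3.ne' h
      · exact h4.ne' h) (isOpen_lt continuous_const hg.continuous).measurableSet
  have k4 := mul_le_mul_of_nonneg_left k3 hΛ.le
  linarith

theorem disc4 {Ω₁ Ω₂ : Set ℂ} (h1 : IsOpen Ω₁) (h2 : IsOpen Ω₂) (hd : Disjoint Ω₁ Ω₂)
    (hf1 : volume Ω₁ ≠ ⊤) (hf2 : volume Ω₂ ≠ ⊤) {Λ : ℝ} (hΛ : 0 < Λ)
    (n1 : NegT Ω₁ Λ 1 univ) (n2 : NegT Ω₂ Λ 1 univ) (h : NegT (Ω₁ ∪ Ω₂) Λ 4 univ) :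
    Real.pi * j01 ^ 2 + 12 * Real.pi ≤ Λ * volume.real (Ω₁ ∪ Ω₂) := by
  have hu : volume.real (Ω₁ ∪ Ω₂) = volume.real Ω₁ + volume.real Ω₂ :=
    measureReal_union hd h2.measurableSet hf1 hf2
  have a1 := one h1 hf1 hΛ n1
  have a2 := one h2 hf2 hΛ n2
  have hj := j01_gt
  have hpi := Real.pi_pos
  rw [hu]
  rcases split h1 h2 hd (k1 := 2) (k2 := 3) (by norm_num) h with b1 | b1
  · rcases split h1 h2 hd (k1 := 3) (k2 := 2) (by norm_num) h with b2 | b2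
    · have := three h1 hf1 hΛ b2
      linarith
    · have c1 := two' h1 hf1 hΛ b1
      have c2 := two' h2 hf2 hΛ b2
      have c3 : 4 ≤ j01 ^ 2 := by nlinarith
      have c4 : Real.pi * 4 ≤ Real.pi * j01 ^ 2 := mul_le_mul_of_nonneg_left c3 hpi.le
      linarith
  · have := three h2 hf2 hΛ b1
    linarith

theorem eigC {Ω₁ Ω₂ : Set ℂ} (h1 : IsOpen Ω₁) (h2 : IsOpen Ω₂) (hd : Disjoint Ω₁ Ω₂)
    (hn1 : Ω₁.Nonempty) (hn2 : Ω₂.Nonempty) (hf1 : volume Ω₁ ≠ ⊤) (hf2 : volume Ω₂ ≠ ⊤)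
    (e1 : dirEig 1 Ω₁ ≤ dirEig 4 (Ω₁ ∪ Ω₂)) (e2 : dirEig 1 Ω₂ ≤ dirEig 4 (Ω₁ ∪ Ω₂)) :
    Real.pi * j01 ^ 2 + 12 * Real.pi ≤ dirEig 4 (Ω₁ ∪ Ω₂) * volume.real (Ω₁ ∪ Ω₂) := by
  have hΩ : IsOpen (Ω₁ ∪ Ω₂) := h1.union h2
  have hne : (Ω₁ ∪ Ω₂).Nonempty := hn1.mono subset_union_left
  have hfin : volume (Ω₁ ∪ Ω₂) ≠ ⊤ := (measure_union_lt_top hf1.lt_top hf2.lt_top).ne
  have hpos : 0 < volume.real (Ω₁ ∪ Ω₂) := by
    unfold Measure.real
    exact ENNReal.toReal_pos (hΩ.measure_pos volume hne).ne' hfin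
  rw [← div_le_iff₀ hpos]
  by_contra hcon
  rw [not_le] at hcon
  obtain ⟨Λ', g1, g2⟩ := exists_between hcon
  have hd4 := g1
  unfold dirEig at hd4
  obtain ⟨Λ, ⟨V, hV, hVt, hq⟩, hΛ⟩ := exists_lt_of_csInf_lt (exists_space 4 hΩ hne) hd4
  have hT : NegT (Ω₁ ∪ Ω₂) Λ' 4 univ := by
    refine negT_of_space V hV hVt fun u hu hu0 => ?_
    have h3 := hq u hu
    have h4 := integral_sq_pos (hVt u hu) hu0
    unfold q
    nlinarith
  have hΛ0 : 0 ≤ Λ := by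
    by_contra hc
    rw [not_le] at hc
    have : Module.Finite ℝ V := Module.finite_of_finrank_pos (by omega)
    obtain ⟨v, hv⟩ := Module.finrank_pos_iff_exists_ne_zero.1 (show 0 < Module.finrank ℝ V by omega)
    have hv' : (v : ℂ → ℝ) ≠ 0 := fun h => hv (Subtype.ext h)
    have h3 := hq v v.2
    have h4 := integral_sq_pos (hVt v v.2) hv'
    have h5 : 0 ≤ ∫ z, ‖fderiv ℝ (v : ℂ → ℝ) z‖ ^ 2 := integral_nonneg fun z => by positivity
    nlinarith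
  have h6 := disc4 h1 h2 hd hf1 hf2 (hΛ0.trans_lt hΛ) (negT_one h1 hn1 (e1.trans_lt g1))
    (negT_one h2 hn2 (e2.trans_lt g1)) hT
  rw [lt_div_iff₀ hpos] at g2
  linarith

end PL3
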