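import Pool.Agent.Lib.PL3.Calib

/-!
Module PL3.Poly: the numbers `Y = 2`, `s = 3`, `zl = 0.294`, `W = 3.6335`.
-/

open MeasureTheory Set
open scoped ContDiff NNReal

namespace PL3

namespace PolyAux

/-- Bernstein form in `w = y²`, degree 5 on `[0, 4]` -/
theorem c0_nonneg {w : ℝ} (h0 : 0 ≤ w) (h4 : w ≤ 4) :
    0 ≤ 13320282209 / 1000000000000 - 95611442521 / 17040384000000 * w +
      5529368371 / 3550080000000 * w ^ 2 - 90820520441 / 106502400000000 * w ^ 3 +
      2216799439 / 8875200000000 * w ^ 4 - 2188461961 / 106502400000000 * w ^ 5 := by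
  have h1 : 0 ≤ 4 - w := by linarith
  have e : 13320282209 / 1000000000000 - 95611442521 / 17040384000000 * w +
      5529368371 / 3550080000000 * w ^ 2 - 90820520441 / 106502400000000 * w ^ 3 +
      2216799439 / 8875200000000 * w ^ 4 - 2188461961 / 106502400000000 * w ^ 5 =
      (13320282209 / 1000000000000 * (4 - w) ^ 5 +
       587865507081751 / 66564000000000000 * 5 * w * (4 - w) ^ 4 +
       227480400166813 / 33282000000000000 * 10 * w ^ 2 * (4 - w) ^ 3 +
       124655062951501 / 66564000000000000 * 10 * w ^ 3 * (4 - w) ^ 2 +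
       5307324859211 / 4160250000000000 * 5 * w ^ 4 * (4 - w) +
       274351437069251 / 66564000000000000 * w ^ 5) / 1024 := by ring
  rw [e]
  positivity

theorem c1_nonneg {w : ℝ} (h0 : 0 ≤ w) (h4 : w ≤ 4) :
    0 ≤ 575127 / 3504640000 + 252488907 / 273800000000 * w - 13816089 / 136900000000 * w ^ 2 := by
  nlinarith [mul_nonneg h0 (by linarith : 0 ≤ 4 - w)]

end PolyAux

open PolyAux

theorem cert : Cert 2 3 (294 / 1000) (36335 / 10000) := by
  refine calib (ι := Fin 3) ![63 / 100, 3 / 4, 1]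
    ![fun y => 181 / 500 * y - 41 / 20000 * y ^ 5, fun y => 21 / 64 * y - 177 / 10000 * y ^ 3,
      fun _ => 0]
    ![fun y => 181 / 500 - 41 / 4000 * y ^ 4, fun y => 21 / 64 - 531 / 10000 * y ^ 2, fun _ => 0]
    (by norm_num) (by norm_num) (by norm_num) (by norm_num) (by norm_num) ?_ ?_ ?_ ?_ 2 rfl
    (fun x => rfl) ?_ ?_
  · intro j
    fin_cases j
    · show (0 : ℝ) < 63 / 100
      norm_num
    · show (0 : ℝ) < 3 / 4
      norm_num
    · show (0 : ℝ) < 1
      norm_num
  · intro j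
    fin_cases j
    · show (181 / 500 * 0 - 41 / 20000 * 0 ^ 5 : ℝ) = 0
      norm_num
    · show (21 / 64 * 0 - 177 / 10000 * 0 ^ 3 : ℝ) = 0
      norm_num
    · rfl
  · intro j x
    fin_cases j
    · show HasDerivAt (fun y : ℝ => 181 / 500 * y - 41 / 20000 * y ^ 5)
        (181 / 500 - 41 / 4000 * x ^ 4) x
      have h0 : HasDerivAt (fun y : ℝ => y ^ 5) (5 * x ^ 4) x := by
        simpa using hasDerivAt_pow 5 x
      have h1 : HasDerivAt (fun y : ℝ => 181 / 500 * y - 41 / 20000 * y ^ 5)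
          (181 / 500 * 1 - 41 / 20000 * (5 * x ^ 4)) x :=
        ((hasDerivAt_id x).const_mul (181 / 500 : ℝ)).sub (h0.const_mul (41 / 20000 : ℝ))
      have e : (181 / 500 - 41 / 4000 * x ^ 4 : ℝ) = 181 / 500 * 1 - 41 / 20000 * (5 * x ^ 4) := by
        ring
      rw [e]
      exact h1
    · show HasDerivAt (fun y : ℝ => 21 / 64 * y - 177 / 10000 * y ^ 3)
        (21 / 64 - 531 / 10000 * x ^ 2) x
      have h0 : HasDerivAt (fun y : ℝ => y ^ 3) (3 * x ^ 2) x := by
        simpa using hasDerivAt_pow 3 x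
      have h1 : HasDerivAt (fun y : ℝ => 21 / 64 * y - 177 / 10000 * y ^ 3)
          (21 / 64 * 1 - 177 / 10000 * (3 * x ^ 2)) x :=
        ((hasDerivAt_id x).const_mul (21 / 64 : ℝ)).sub (h0.const_mul (177 / 10000 : ℝ))
      have e : (21 / 64 - 531 / 10000 * x ^ 2 : ℝ) = 21 / 64 * 1 - 177 / 10000 * (3 * x ^ 2) := by
        ring
      rw [e]
      exact h1
    · exact hasDerivAt_const x (0 : ℝ)
  · intro j
    fin_cases j
    · show Continuous fun y : ℝ => 181 / 500 - 41 / 4000 * y ^ 4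
      fun_prop
    · show Continuous fun y : ℝ => 21 / 64 - 531 / 10000 * y ^ 2
      fun_prop
    · exact continuous_const
  · intro j y hy z hz0 hz1 hi
    have i0 := hi 0
    have i1 := hi 1
    have i2 := hi 2
    clear hi
    obtain ⟨hy0, hy2⟩ := hy
    set w : ℝ := y ^ 2 with hw
    have hw0 : 0 ≤ w := sq_nonneg y
    have hw4 : w ≤ 4 := by rw [hw]; nlinarith
    have hzs : 0 < 1 - z ^ 2 := by nlinarith
    fin_cases j
    · change ((3 / 4 : ℝ)) ^ 3 * z + (21 / 64 * y - 177 / 10000 * y ^ 3) ≤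
        (63 / 100 : ℝ) ^ 3 * z + (181 / 500 * y - 41 / 20000 * y ^ 5) at i1
      change 181 / 500 - 41 / 4000 * y ^ 4 ≤
        ((63 / 100 : ℝ) - (63 / 100) ^ 3) * Real.sqrt (1 - z ^ 2)
      have hg : 181 / 500 - 41 / 4000 * y ^ 4 = 181 / 500 - 41 / 4000 * w ^ 2 := by
        rw [hw]; ring
      have hg0 : 0 ≤ 181 / 500 - 41 / 4000 * w ^ 2 := by nlinarith
      rw [hg]
      have h1 : (181 / 500 - 41 / 4000 * w ^ 2) / (379953 / 1000000) ≤ Real.sqrt (1 - z ^ 2) := by
        apply Real.le_sqrt_of_sq_le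
        rw [div_pow, div_le_iff₀ (by norm_num)]
        rcases le_total z 0 with h | h
        · have h2 : z ^ 2 ≤ (294 / 1000) ^ 2 := by nlinarith
          nlinarith
        · have h2 : 171828 / 1000000 * z ≤ y * (271 / 8000 + 177 / 10000 * w - 41 / 20000 * w ^ 2) := by
            rw [hw]
            nlinarith
          have h3 : 0 ≤ 171828 / 1000000 * z := by positivity
          have h4 := mul_self_le_mul_self h3 h2
          have h5 := c0_nonneg hw0 hw4
          have h6 : y * (271 / 8000 + 177 / 10000 * w - 41 / 20000 * w ^ 2) *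
            (y * (271 / 8000 + 177 / 10000 * w - 41 / 20000 * w ^ 2)) =
            w * (271 / 8000 + 177 / 10000 * w - 41 / 20000 * w ^ 2) ^ 2 := by
            rw [hw]; ring
          rw [h6] at h4
          nlinarith [h4, h5]
      have h7 : ((63 / 100 : ℝ) - (63 / 100) ^ 3) = 379953 / 1000000 := by norm_num
      rw [h7]
      rw [div_le_iff₀ (by norm_num)] at h1
      linarith
    · change ((63 / 100 : ℝ)) ^ 3 * z + (181 / 500 * y - 41 / 20000 * y ^ 5) ≤
        (3 / 4 : ℝ) ^ 3 * z + (21 / 64 * y - 177 / 10000 * y ^ 3) at i0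
      change ((1 : ℝ)) ^ 3 * z + 0 ≤
        (3 / 4 : ℝ) ^ 3 * z + (21 / 64 * y - 177 / 10000 * y ^ 3) at i2
      change 21 / 64 - 531 / 10000 * y ^ 2 ≤ ((3 / 4 : ℝ) - (3 / 4) ^ 3) * Real.sqrt (1 - z ^ 2)
      rw [← hw]
      have hz : 0 ≤ z := by
        have h2 : 0 ≤ y * (271 / 8000 + 177 / 10000 * w - 41 / 20000 * w ^ 2) := by
          apply mul_nonneg hy0
          nlinarith
        have h3 : y * (271 / 8000 + 177 / 10000 * w - 41 / 20000 * w ^ 2) ≤
          171828 / 1000000 * z := by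
          rw [hw]
          nlinarith
        nlinarith
      have hg0 : 0 ≤ 21 / 64 - 531 / 10000 * w := by nlinarith
      have h1 : (21 / 64 - 531 / 10000 * w) / (21 / 64) ≤ Real.sqrt (1 - z ^ 2) := by
        apply Real.le_sqrt_of_sq_le
        rw [div_pow, div_le_iff₀ (by norm_num)]
        have h2 : 37 / 64 * z ≤ y * (21 / 64 - 177 / 10000 * w) := by
          rw [hw]
          nlinarith
        have h3 : 0 ≤ 37 / 64 * z := by positivity
        have h4 := mul_self_le_mul_self h3 h2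
        have h5 := mul_nonneg hw0 (c1_nonneg hw0 hw4)
        have h6 : y * (21 / 64 - 177 / 10000 * w) * (y * (21 / 64 - 177 / 10000 * w)) =
          w * (21 / 64 - 177 / 10000 * w) ^ 2 := by
          rw [hw]; ring
        rw [h6] at h4
        nlinarith [h4, h5]
      have h7 : ((3 / 4 : ℝ) - (3 / 4) ^ 3) = 21 / 64 := by norm_num
      rw [h7]
      rw [div_le_iff₀ (by norm_num)] at h1
      linarith
    · change (0 : ℝ) ≤ ((1 : ℝ) - 1 ^ 3) * Real.sqrt (1 - z ^ 2)
      simp
  · intro z hz0 hz1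
    refine ⟨0, ?_⟩
    show (36335 / 10000 : ℝ) ≤ (1 + 3) * ((63 / 100) ^ 3 * z +
      (181 / 500 * 2 - 41 / 20000 * 2 ^ 5)) + 1 - z
    norm_num
    linarith

end PL3
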