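import Pool.Agent.Lib.PL3.Core
import Pool.Agent.Lib.PL3.Poly

/-!
Module PL3.Final: `Λ |Ω| ≥ 12 π` if there are three test functions.

`core12` : numbers, from `core cert`.  `kap = 3√3π/2`; first alternative: `3√3/2 · 1.294 π + 3 π j01²/2 ≥ 12 π` by
`j01_gt : 12/5 < j01` (`1.5 · 1.294 · 1.732 + 1.5 · 5.76 = 12.0018`); second alternative:
`8 kap W ≤ 5 |Ω| + 48`, `kap W = 1.5 · 3.6335 √3 π`, `12 · 3.6335 √3 π - 48 ≥ 60 π` since `√3 ≥ 1.732`,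
`12 · 3.6335 · 1.732 = 75.518`, `15.5 π ≥ 48.6`.
`negT_scale` : for `Λ > 0` put `ω = √Λ`, `w' j z = w j (ω⁻¹ • z)`, test functions of `Ω' = {z | ω⁻¹ • z ∈ Ω}`:
`∫ |∇u'|² = ∫ |∇u|²`, `∫ u'² = Λ ∫ u²` (change of variables: `Measure.integral_comp_smul`, `finrank ℝ ℂ = 2`);
`fderiv` of `z ↦ u (ω⁻¹ • z)` is `ω⁻¹ • fderiv u (ω⁻¹ • z)` (`fderiv_comp_smul` or the chain rule).
`vol_scale` : `|Ω'| = Λ |Ω|` (`Measure.addHaar_preimage_smul`).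
-/

open MeasureTheory Set
open scoped ContDiff NNReal

namespace PL3

open DK4 PL4

theorem core12 {Ω : Set ℂ} (hΩ : IsOpen Ω) (hfin : volume Ω ≠ ⊤) (h : NegT Ω 1 3 univ) :
    12 * Real.pi ≤ volume.real Ω := by
  have h3 : (1.732 : ℝ) ≤ Real.sqrt 3 := by
    apply Real.le_sqrt_of_sq_le
    norm_num
  have hpi : (3.14 : ℝ) < Real.pi := Real.pi_gt_d2
  have hj : (5.76 : ℝ) ≤ j01 ^ 2 := by nlinarith [j01_gt]
  have hk : 1.5 * 1.732 * Real.pi ≤ kap := by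
    unfold kap
    nlinarith
  have hp0 : 0 < Real.pi := Real.pi_pos
  rcases core cert (by norm_num) (by norm_num) hΩ hfin h with h1 | h1
  · have h4 : Real.pi * 5.76 ≤ Real.pi * j01 ^ 2 := mul_le_mul_of_nonneg_left hj hp0.le
    norm_num at h1 h4 hk ⊢
    linarith
  · norm_num at h1 hk ⊢
    linarith

namespace FinalAux

theorem r_pos {Λ : ℝ} (hΛ : 0 < Λ) : 0 < (Real.sqrt Λ)⁻¹ := inv_pos.2 (Real.sqrt_pos.2 hΛ)

theorem r_sq {Λ : ℝ} (hΛ : 0 < Λ) : (Real.sqrt Λ)⁻¹ ^ 2 * Λ = 1 := by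
  rw [inv_pow, Real.sq_sqrt hΛ.le, inv_mul_cancel₀ hΛ.ne']

theorem en_scale {Λ : ℝ} (hΛ : 0 < Λ) (u : ℂ → ℝ) :
    en 1 univ (fun z => u ((Real.sqrt Λ)⁻¹ • z)) = en Λ univ u := by
  have hr := r_pos hΛ
  have hr2 := r_sq hΛ
  generalize (Real.sqrt Λ)⁻¹ = r at hr hr2
  have h1 : ∀ z : ℂ, ‖fderiv ℝ (fun z => u (r • z)) z‖ ^ 2 - 1 * (fun z => u (r • z)) z ^ 2 =
      (fun y : ℂ => r ^ 2 * (‖fderiv ℝ u y‖ ^ 2 - Λ * u y ^ 2)) (r • z) := by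
    intro z
    have h2 : fderiv ℝ (fun z => u (r • z)) z = r • fderiv ℝ u (r • z) := fderiv_comp_smul r
    simp only [h2, norm_smul, Real.norm_eq_abs, abs_of_pos hr, mul_pow]
    linear_combination (-(u (r • z)) ^ 2) * (-hr2)
  rw [en, en, setIntegral_univ, setIntegral_univ]
  simp_rw [h1]
  rw [Measure.integral_comp_smul volume (fun y : ℂ => r ^ 2 * (‖fderiv ℝ u y‖ ^ 2 - Λ * u y ^ 2)) r,
    Complex.finrank_real_complex, abs_of_pos (inv_pos.2 (pow_pos hr 2)), integral_const_mul,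
    smul_eq_mul, ← mul_assoc, inv_mul_cancel₀ (pow_pos hr 2).ne', one_mul]

end FinalAux

open FinalAux

theorem negT_scale {Ω : Set ℂ} {Λ : ℝ} (hΛ : 0 < Λ) {n : ℕ} (h : NegT Ω Λ n univ) :
    NegT {z | (Real.sqrt Λ)⁻¹ • z ∈ Ω} 1 n univ := by
  obtain ⟨w, hw, hneg⟩ := h
  have hr := r_pos hΛ
  refine ⟨fun j z => w j ((Real.sqrt Λ)⁻¹ • z), fun j => ?_, fun c hc => ?_⟩
  · obtain ⟨c1, c2, c3⟩ := hw j
    have hts : tsupport (fun z => w j ((Real.sqrt Λ)⁻¹ • z)) =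
        (fun z => (Real.sqrt Λ)⁻¹ • z) ⁻¹' tsupport (w j) :=
      tsupport_comp_eq_preimage (w j) (Homeomorph.smulOfNeZero _ hr.ne')
    refine ⟨c1.comp (contDiff_const_smul _), ?_, ?_⟩
    · change IsCompact (tsupport (fun z => w j ((Real.sqrt Λ)⁻¹ • z)))
      rw [hts]
      exact (Homeomorph.smulOfNeZero (α := ℂ) _ hr.ne').isClosedEmbedding.isCompact_preimage c2
    · rw [hts]
      exact preimage_mono c3
  · have h2 : uc (fun j z => w j ((Real.sqrt Λ)⁻¹ • z)) c =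
        fun z => uc w c ((Real.sqrt Λ)⁻¹ • z) := rfl
    rw [h2, en_scale hΛ]
    exact hneg c hc

theorem vol_scale {Ω : Set ℂ} {Λ : ℝ} (hΛ : 0 < Λ) (hfin : volume Ω ≠ ⊤) :
    volume {z : ℂ | (Real.sqrt Λ)⁻¹ • z ∈ Ω} ≠ ⊤ ∧
    volume.real {z : ℂ | (Real.sqrt Λ)⁻¹ • z ∈ Ω} = Λ * volume.real Ω := by
  have hr := r_pos hΛ
  have h1 : volume {z : ℂ | (Real.sqrt Λ)⁻¹ • z ∈ Ω} = ENNReal.ofReal Λ * volume Ω := by
    have h2 := Measure.addHaar_preimage_smul (volume : Measure ℂ) hr.ne' Ω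
    have h3 : |((Real.sqrt Λ)⁻¹ ^ Module.finrank ℝ ℂ)⁻¹| = Λ := by
      rw [Complex.finrank_real_complex, abs_of_pos (inv_pos.2 (pow_pos hr 2)), inv_pow, inv_inv,
        Real.sq_sqrt hΛ.le]
    rw [h3] at h2
    exact h2
  refine ⟨?_, ?_⟩
  · rw [h1]
    exact ENNReal.mul_ne_top ENNReal.ofReal_ne_top hfin
  · rw [measureReal_def, measureReal_def, h1, ENNReal.toReal_mul, ENNReal.toReal_ofReal hΛ.le]

theorem three {Ω : Set ℂ} (hΩ : IsOpen Ω) (hfin : volume Ω ≠ ⊤) {Λ : ℝ} (hΛ : 0 < Λ)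
    (h : NegT Ω Λ 3 univ) : 12 * Real.pi ≤ Λ * volume.real Ω := by
  obtain ⟨h1, h2⟩ := vol_scale (Ω := Ω) hΛ hfin
  rw [← h2]
  exact core12 (hΩ.preimage (continuous_const_smul _)) h1 (negT_scale hΛ h)

end PL3
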