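import Pool.Agent.Lib.PL3.Piece
import Pool.Agent.Lib.DK4.Fold

/-!
Module PL3.Gen: the inequality for a piece in an arbitrary vertical half plane.

Apply `piece` to `f' z = f (FoldAux.Aff t 0 σ 1 z) = f ⟨t + σ z.re, z.im⟩`; `FoldAux.aff_mp`,
`aff_me`, `aff_fd`; the preimage of `Hf t σ` is `{0 < re}` (as `σ² = 1`), the preimage of `St Y t σ` is
`{0 < re ≤ Y}`; `MeasurePreserving.setIntegral_preimage_emb`, `measure_preimage_emb`.  `Adm f'`: composition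
with an isometry (or as in `foldh_adm`).
-/

open MeasureTheory Set
open scoped ContDiff NNReal

namespace PL3

open DK4 PL4

namespace GenAux

open FoldAux

theorem adm_aff {f : ℂ → ℝ} (hf : Adm f) {a b : ℝ} (ha : a = 1 ∨ a = -1) (hb : b = 1 ∨ b = -1)
    (t s : ℝ) : Adm (fun z => f (Aff t s a b z)) := by
  obtain ⟨L, hL⟩ := exists_L ha hb
  have e := aff_eq (t := t) (s := s) hL
  obtain ⟨K, hK⟩ := hf.lip
  refine ⟨⟨K * 1, ?_⟩, ?_⟩
  · have h1 : Isometry (Aff t s a b) := by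
      rw [e]
      exact (IsometryEquiv.addRight (⟨t, s⟩ : ℂ)).isometry.comp L.isometry
    exact hK.comp h1.lipschitz
  · have h2 := hf.cpt.comp_homeomorph (L.toHomeomorph.trans (Homeomorph.addRight (⟨t, s⟩ : ℂ)))
    have h3 : (fun z => f (Aff t s a b z)) =
        f ∘ (L.toHomeomorph.trans (Homeomorph.addRight (⟨t, s⟩ : ℂ))) := by
      funext z
      rw [e]
      rfl
    rw [h3]
    exact h2

end GenAux

open GenAux FoldAux

theorem piece_gen {Y s zl W : ℝ} (hC : Cert Y s zl W) {f : ℂ → ℝ} (hf : Adm f) (h0 : ∀ z, 0 ≤ f z)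
    {t σ : ℝ} (hσ : σ = 1 ∨ σ = -1) (hneg : en 1 (Hf t σ) f < 0) :
    kap * (1 + zl) ≤ volume.real (Hf t σ ∩ {z | 0 < f z}) ∨
    kap * W ≤ volume.real (Hf t σ ∩ {z | 0 < f z}) +
      s * volume.real (St Y t σ ∩ {z | 0 < f z}) := by
  have hmp := aff_mp hσ (Or.inl rfl : (1 : ℝ) = 1 ∨ (1 : ℝ) = -1) t 0
  have hme := aff_me hσ (Or.inl rfl : (1 : ℝ) = 1 ∨ (1 : ℝ) = -1) t 0
  have hadm := adm_aff hf hσ (Or.inl rfl : (1 : ℝ) = 1 ∨ (1 : ℝ) = -1) t 0
  have e1 : ∀ x : ℝ, σ * (t + σ * x - t) = x := by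
    intro x
    have := sg_sq hσ
    linear_combination x * this
  have p1 : Aff t 0 σ 1 ⁻¹' (Hf t σ) = {z : ℂ | 0 < z.re} := by
    ext z
    simp only [Set.mem_preimage, Hf, Set.mem_ofPred_eq, Aff]
    rw [e1]
  have p2 : Aff t 0 σ 1 ⁻¹' (St Y t σ) = {z : ℂ | 0 < z.re ∧ z.re ≤ Y} := by
    ext z
    simp only [Set.mem_preimage, St, Set.mem_ofPred_eq, Aff]
    rw [e1]
  have v : ∀ S : Set ℂ, volume.real (Aff t 0 σ 1 ⁻¹' S ∩ {z | 0 < f (Aff t 0 σ 1 z)}) =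
      volume.real (S ∩ {z | 0 < f z}) := by
    intro S
    have h1 : Aff t 0 σ 1 ⁻¹' S ∩ {z | 0 < f (Aff t 0 σ 1 z)} =
        Aff t 0 σ 1 ⁻¹' (S ∩ {z | 0 < f z}) := rfl
    rw [h1, Measure.real, Measure.real, hmp.measure_preimage_emb hme]
  have hen : en 1 {z : ℂ | 0 < z.re} (fun z => f (Aff t 0 σ 1 z)) < 0 := by
    have h1 := hmp.setIntegral_preimage_emb hme (fun z => ‖fderiv ℝ f z‖ ^ 2 - 1 * f z ^ 2) (Hf t σ)
    rw [p1] at h1
    have h2 : en 1 {z : ℂ | 0 < z.re} (fun z => f (Aff t 0 σ 1 z)) = en 1 (Hf t σ) f := by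
      unfold en
      rw [← h1]
      congr 1
      funext z
      rw [aff_fd hσ (Or.inl rfl) t 0 f z]
    rw [h2]
    exact hneg
  have h := piece hC hadm (fun z => h0 _) hen
  rw [← p1, v, ← p2, v] at h
  exact h

end PL3
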