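import Pool.Agent.Lib.PL3.Disc

/-!
Module PL3.Min: `λ₃ |Ω| ≥ 12 π` in terms of `dirEig`, and the case of a disconnected minimiser of `λ₄ |Ω|`.
-/

open MeasureTheory Set
open scoped ContDiff NNReal

namespace PL3

open DK4 PL4 CutAux

theorem vol_pos {Ω : Set ℂ} (hΩ : IsOpen Ω) (hne : Ω.Nonempty) (hfin : volume Ω ≠ ⊤) :
    0 < volume.real Ω := by
  unfold Measure.real
  exact ENNReal.toReal_pos (hΩ.measure_pos volume hne).ne' hfin

/-- every admissible level of the min-max problem is nonnegative -/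
theorem level_nonneg {Ω : Set ℂ} {n : ℕ} (hn : 0 < n) {Λ : ℝ} {V : Submodule ℝ (ℂ → ℝ)}
    (hV : Module.finrank ℝ V = n) (hVt : ∀ u ∈ V, IsTest Ω u)
    (hq : ∀ u ∈ V, ∫ z, ‖fderiv ℝ u z‖ ^ 2 ≤ Λ * ∫ z, u z ^ 2) : 0 ≤ Λ := by
  by_contra hc
  rw [not_le] at hc
  have : Module.Finite ℝ V := Module.finite_of_finrank_pos (by omega)
  obtain ⟨v, hv⟩ := Module.finrank_pos_iff_exists_ne_zero.1 (show 0 < Module.finrank ℝ V by omega)
  have hv' : (v : ℂ → ℝ) ≠ 0 := fun h => hv (Subtype.ext h)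
  have h3 := hq v v.2
  have h4 := integral_sq_pos (hVt v v.2) hv'
  have h5 : 0 ≤ ∫ z, ‖fderiv ℝ (v : ℂ → ℝ) z‖ ^ 2 := integral_nonneg fun z => by positivity
  nlinarith

/-- `NegT` above the eigenvalue -/
theorem negT_above {Ω : Set ℂ} (hΩ : IsOpen Ω) (hne : Ω.Nonempty) (n : ℕ) {Λ : ℝ}
    (h : dirEig n Ω < Λ) : NegT Ω Λ n univ := by
  unfold dirEig at h
  obtain ⟨μ, ⟨V, hV, hVt, hq⟩, hμ⟩ := exists_lt_of_csInf_lt (exists_space n hΩ hne) h
  refine negT_of_space V hV hVt fun u hu hu0 => ?_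
  have h3 := hq u hu
  have h4 := integral_sq_pos (hVt u hu) hu0
  unfold q
  nlinarith

theorem eig3 {Ω : Set ℂ} (hΩ : IsOpen Ω) (hne : Ω.Nonempty) (hfin : volume Ω ≠ ⊤) :
    12 * Real.pi ≤ dirEig 3 Ω * volume.real Ω := by
  have hpos := vol_pos hΩ hne hfin
  rw [← div_le_iff₀ hpos]
  unfold dirEig
  apply le_csInf (exists_space 3 hΩ hne)
  rintro Λ ⟨V, hV, hVt, hq⟩
  rw [div_le_iff₀ hpos]
  by_contra hcon
  rw [not_le] at hcon
  obtain ⟨Λ', h1, h2⟩ : ∃ Λ', Λ < Λ' ∧ Λ' * volume.real Ω < 12 * Real.pi := by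
    obtain ⟨Λ', h1, h2⟩ := exists_between ((lt_div_iff₀ hpos).2 hcon)
    exact ⟨Λ', h1, by rwa [lt_div_iff₀ hpos] at h2⟩
  have hneg : ∀ u ∈ V, u ≠ 0 → q Λ' u < 0 := by
    intro u hu hne'
    have h3 := hq u hu
    have h4 := integral_sq_pos (hVt u hu) hne'
    unfold q
    nlinarith
  have hT := negT_of_space V hV hVt hneg
  have hΛ0 := level_nonneg (by norm_num) hV hVt hq
  have h6 := three hΩ hfin (hΛ0.trans_lt h1) hT
  linarith

/-- a negative `n`-dimensional space gives an upper bound of the eigenvalue -/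
theorem dirEig_le {Ω : Set ℂ} {Λ : ℝ} {n : ℕ} (hn : 0 < n) (h : NegT Ω Λ n univ) :
    dirEig n Ω ≤ Λ := by
  obtain ⟨w, hw, hneg⟩ := h
  have hz : ∀ c : Fin n → ℝ, (∑ i, c i • w i) = uc w c := by
    intro c
    funext z
    simp [uc, Finset.sum_apply]
  have hli : LinearIndependent ℝ w := by
    rw [Fintype.linearIndependent_iff]
    intro c hc
    by_contra hcon
    have hc0 : c ≠ 0 := fun h0 => hcon fun i => by rw [h0]; rfl
    have h1 := hneg c hc0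
    rw [hz] at hc
    rw [hc] at h1
    have h2 : en Λ univ (0 : ℂ → ℝ) = 0 := by
      unfold en
      simp
    linarith
  have hfr : Module.finrank ℝ (Submodule.span ℝ (range w)) = n := by
    rw [finrank_span_eq_card hli, Fintype.card_fin]
  have htest : ∀ u ∈ Submodule.span ℝ (range w), ∃ c : Fin n → ℝ, u = uc w c := by
    intro u hu
    obtain ⟨c, hc⟩ := (Submodule.mem_span_range_iff_exists_fun ℝ).1 hu
    exact ⟨c, by rw [← hc, hz]⟩
  unfold dirEig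
  apply csInf_le
  · refine ⟨0, ?_⟩
    rintro μ ⟨V, hV, hVt, hq⟩
    exact level_nonneg hn hV hVt hq
  · refine ⟨Submodule.span ℝ (range w), hfr, ?_, ?_⟩
    · intro u hu
      obtain ⟨c, rfl⟩ := htest u hu
      exact uc_test hw c
    · intro u hu
      obtain ⟨c, rfl⟩ := htest u hu
      by_cases hc : c = 0
      · subst hc
        have : uc w 0 = 0 := by
          funext z
          simp [uc]
        rw [this]
        simp
      · have h1 := hneg c hc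
        have h2 := q_eq_integral (Λ := Λ) (uc_test hw c).adm
        unfold en at h1
        rw [Measure.restrict_univ, ← h2] at h1
        unfold q at h1
        linarith

/-- a part with first eigenvalue above `λ₄` is superfluous -/
theorem drop {Ω₁ Ω₂ : Set ℂ} (h1 : IsOpen Ω₁) (h2 : IsOpen Ω₂) (hd : Disjoint Ω₁ Ω₂)
    (hn1 : Ω₁.Nonempty) (e1 : dirEig 4 (Ω₁ ∪ Ω₂) < dirEig 1 Ω₁) :
    dirEig 4 Ω₂ ≤ dirEig 4 (Ω₁ ∪ Ω₂) := by
  apply le_of_forall_gt_imp_ge_of_dense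
  intro Λ hΛ
  obtain ⟨Λ', g1, g2⟩ := exists_between (lt_min hΛ e1)
  have hT := negT_above (h1.union h2) (hn1.mono subset_union_left) 4 g1
  rcases split h1 h2 hd (k1 := 1) (k2 := 4) (by norm_num) hT with b | b
  · have := dirEig_le (by norm_num) b
    have := (lt_min_iff.1 g2).2
    linarith
  · have := dirEig_le (by norm_num) b
    have := (lt_min_iff.1 g2).1
    linarith

theorem eigMin {Ω₁ Ω₂ : Set ℂ} (h1 : IsOpen Ω₁) (h2 : IsOpen Ω₂) (hd : Disjoint Ω₁ Ω₂)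
    (hn1 : Ω₁.Nonempty) (hn2 : Ω₂.Nonempty) (hf1 : volume Ω₁ ≠ ⊤) (hf2 : volume Ω₂ ≠ ⊤)
    (hmin : ∀ Ω : Set ℂ, IsOpen Ω → Ω.Nonempty → volume Ω ≠ ⊤ →
      dirEig 4 (Ω₁ ∪ Ω₂) * volume.real (Ω₁ ∪ Ω₂) ≤ dirEig 4 Ω * volume.real Ω) :
    Real.pi * j01 ^ 2 + 12 * Real.pi ≤ dirEig 4 (Ω₁ ∪ Ω₂) * volume.real (Ω₁ ∪ Ω₂) := by
  have hΩ : IsOpen (Ω₁ ∪ Ω₂) := h1.union h2
  have hne : (Ω₁ ∪ Ω₂).Nonempty := hn1.mono subset_union_left
  have hfin : volume (Ω₁ ∪ Ω₂) ≠ ⊤ := (measure_union_lt_top hf1.lt_top hf2.lt_top).ne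
  have hu : volume.real (Ω₁ ∪ Ω₂) = volume.real Ω₁ + volume.real Ω₂ :=
    measureReal_union hd h2.measurableSet hf1 hf2
  have p1 := vol_pos h1 hn1 hf1
  have p2 := vol_pos h2 hn2 hf2
  have hp : 0 < dirEig 4 (Ω₁ ∪ Ω₂) := by
    have h3 := eig4 hΩ hne hfin
    have h4 := vol_pos hΩ hne hfin
    have h5 : 0 < 5 / 2 * (Real.pi * j01 ^ 2) := by
      have := j01_gt
      have := Real.pi_pos
      positivity
    exact pos_of_mul_pos_left (h5.trans_le h3) h4.le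
  apply eigC h1 h2 hd hn1 hn2 hf1 hf2
  · by_contra hc
    rw [not_le] at hc
    have h3 := drop h1 h2 hd hn1 hc
    have h4 := hmin Ω₂ h2 hn2 hf2
    have h5 := mul_le_mul_of_nonneg_right h3 p2.le
    have h6 := mul_pos hp p1
    rw [hu] at h4
    nlinarith
  · by_contra hc
    rw [not_le] at hc
    have h3 : dirEig 4 Ω₁ ≤ dirEig 4 (Ω₁ ∪ Ω₂) := by
      rw [union_comm] at hc ⊢
      exact drop h2 h1 hd.symm hn2 hc
    have h4 := hmin Ω₁ h1 hn1 hf1
    have h5 := mul_le_mul_of_nonneg_right h3 p1.le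
    have h6 := mul_pos hp p2
    rw [hu] at h4
    nlinarith

end PL3
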