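import Pool.Agent.Lib.DK4.Num

/-!
Module PL3.Num: `j01² < 6` and `12 < j11²`.
-/

open MeasureTheory Set

namespace PL3

open DK4 NumAux

theorem J0_neg2 : J0 (61 / 25) < 0 := by
  have h := (tail (t0 (61 / 25)) 6 (t0_half (by norm_num))).2
  have h2 : |t0 (61 / 25) 6| ≤ 1 / 1000 := by
    rw [t0, abs_of_nonneg (by positivity)]
    norm_num [Nat.factorial]
  have h3 : ∑ i ∈ Finset.range 6, t0 (61 / 25) i < -1 / 100 := by
    simp only [t0, Finset.sum_range_succ, Finset.sum_range_zero, Nat.factorial]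
    norm_num
  show ∑' k, t0 (61 / 25) k < 0
  have h5 := (abs_le.1 h).2
  linarith

theorem j01_lt : j01 < 61 / 25 := by
  by_contra hc
  rw [not_lt] at hc
  rcases lt_or_eq_of_le hc with h | h
  · have := J0_pos_of_lt (by norm_num) h
    have := J0_neg2
    linarith
  · have h1 := J0_j01
    rw [← h] at h1
    have := J0_neg2
    linarith

theorem j01_sq_lt : j01 ^ 2 < 6 := by
  have := j01_lt
  have := j01_pos
  nlinarith

theorem J1_pos2 {x : ℝ} (h0 : 0 < x) (hx : x ≤ 87 / 25) : 0 < J1 x := by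
  set s := (x / 2) ^ 2 with hs
  have hs0 : 0 ≤ s := by positivity
  have hs1 : s ≤ 757 / 250 := by
    rw [hs]
    nlinarith
  have h := (tail (t1 x) 6 (t1_half (by
    rw [← hs]
    norm_num
    linarith))).2
  have h1 : ∀ k, t1 x k = (x / 2) * ((-1 : ℝ) ^ k * s ^ k / ((k.factorial : ℝ) * ((k + 1).factorial : ℝ))) :=
    fun k => by
      rw [t1, hs, ← pow_mul, pow_succ]
      ring
  have h2 : |t1 x 6| ≤ (x / 2) * (1 / 1000) := by
    rw [h1, abs_of_nonneg (by positivity)]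
    apply mul_le_mul_of_nonneg_left _ (by positivity)
    have h3 : s ^ 6 ≤ (757 / 250 : ℝ) ^ 6 := by gcongr
    norm_num [Nat.factorial]
    norm_num at h3
    linarith
  have h3 : ∑ i ∈ Finset.range 6, t1 x i =
      (x / 2) * (1 - s / 2 + s ^ 2 / 12 - s ^ 3 / 144 + s ^ 4 / 2880 - s ^ 5 / 86400) := by
    simp only [h1, Finset.sum_range_succ, Finset.sum_range_zero, Nat.factorial]
    push_cast
    ring
  have h4 : (1 : ℝ) / 100 < 1 - s / 2 + s ^ 2 / 12 - s ^ 3 / 144 + s ^ 4 / 2880 - s ^ 5 / 86400 := by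
    obtain ⟨t, ht⟩ : ∃ t, t = 757 / 250 - s := ⟨_, rfl⟩
    have ht0 : 0 ≤ t := by linarith
    have hst : s = 757 / 250 - t := by linarith
    rw [hst]
    nlinarith [ht0, pow_nonneg ht0 2, pow_nonneg ht0 3, pow_nonneg ht0 4, pow_nonneg ht0 5]
  show 0 < ∑' k, t1 x k
  rw [h3] at h
  have h5 := (abs_le.1 h).1
  have h6 : (x / 2) * (1 / 100) < (x / 2) *
      (1 - s / 2 + s ^ 2 / 12 - s ^ 3 / 144 + s ^ 4 / 2880 - s ^ 5 / 86400) :=
    mul_lt_mul_of_pos_left h4 (by positivity)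
  linarith

theorem j11_sq_gt : 12 < j11 ^ 2 := by
  have hne : {x : ℝ | 0 < x ∧ J1 x = 0}.Nonempty := by
    obtain ⟨c, hc, h⟩ := intermediate_value_Ioo' (by norm_num : (2 : ℝ) ≤ 4) cont_J1.continuousOn
      ⟨J1_neg, J1_pos⟩
    exact ⟨c, by linarith [hc.1], h⟩
  have h1 : 87 / 25 ≤ j11 := by
    unfold j11
    apply le_csInf hne
    rintro x ⟨hx0, hx⟩
    by_contra hc
    rw [not_le] at hc
    exact (J1_pos2 hx0 hc.le).ne' hx
  nlinarith

end PL3
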