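import Pool.Agent.Lib.PL3.Defs

/-!
Module PL3.OneD: integration by parts with a Lipschitz multiplier, and the one-dimensional
Faber-Krahn inequality.
-/

open MeasureTheory Set Filter Topology
open scoped ContDiff NNReal

namespace PL3

namespace OneDAux

theorem int_of_bdd {h : ℝ → ℝ} (hm : AEStronglyMeasurable h volume) {C R : ℝ}
    (hC : ∀ x, |h x| ≤ C) (hR : ∀ x, h x ≠ 0 → x ∈ Ioc (-R) R) : Integrable h := by
  have h1 : IntegrableOn h (Ioc (-R) R) :=
    Measure.integrableOn_of_bounded (M := C) (by simp) hm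
      (Eventually.of_forall fun x => by rw [Real.norm_eq_abs]; exact hC x)
  exact (integrableOn_iff_integrable_of_support_subset (fun x hx => hR x hx)).1 h1

theorem supp_bd {f : ℝ → ℝ} (hc : HasCompactSupport f) :
    ∃ R : ℝ, 0 < R ∧ ∀ x ∈ tsupport f, x ∈ Ioo (-R) R := by
  obtain ⟨M, hM⟩ := hc.isCompact.isBounded.subset_closedBall (0 : ℝ)
  refine ⟨|M| + 1, by positivity, fun x hx => ?_⟩
  have h1 := hM hx
  rw [Metric.mem_closedBall, Real.dist_eq, sub_zero] at h1
  have h2 : |x| < |M| + 1 := by linarith [le_abs_self M]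
  exact abs_lt.1 h2

theorem deriv_bd {f : ℝ → ℝ} {K : ℝ≥0} (hf : LipschitzWith K f) (x : ℝ) : |deriv f x| ≤ K := by
  have := norm_deriv_le_of_lipschitz (x₀ := x) hf
  rwa [Real.norm_eq_abs] at this

end OneDAux

open OneDAux

/-- integration by parts -/
theorem ibp {G f : ℝ → ℝ} (hG : ∃ K : ℝ≥0, LipschitzWith K G) (hf : ∃ K : ℝ≥0, LipschitzWith K f)
    (hc : HasCompactSupport f) :
    ∫ x, deriv G x * f x ^ 2 = -2 * ∫ x, G x * f x * deriv f x := by
  obtain ⟨K, hK⟩ := hG
  obtain ⟨K', hK'⟩ := hf
  obtain ⟨R, hR0, hR⟩ := supp_bd hc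
  have hsub : ∀ x, f x ≠ 0 → x ∈ Ioc (-R) R := fun x hx =>
    Ioo_subset_Ioc_self (hR x (subset_tsupport f hx))
  have hz : ∀ x, x ∉ Ioo (-R) R → f x = 0 := fun x hx => by
    by_contra h
    exact hx (hR x (subset_tsupport f h))
  have aG : AbsolutelyContinuousOnInterval G (-R) R :=
    (hK.lipschitzOnWith (s := uIcc (-R) R)).absolutelyContinuousOnInterval
  have af : AbsolutelyContinuousOnInterval f (-R) R :=
    (hK'.lipschitzOnWith (s := uIcc (-R) R)).absolutelyContinuousOnInterval
  have aF : AbsolutelyContinuousOnInterval (fun x => f x * f x) (-R) R := af.fun_mul af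
  have h1 := aG.integral_deriv_mul_eq_sub aF
  rw [hz R (by simp), hz (-R) (by simp)] at h1
  have h2 : ∫ x in (-R)..R, (deriv G x * (f x * f x) + G x * deriv (fun x => f x * f x) x) =
      (∫ x in (-R)..R, deriv G x * (f x * f x)) +
        ∫ x in (-R)..R, G x * deriv (fun x => f x * f x) x :=
    intervalIntegral.integral_add (aG.intervalIntegrable_deriv.mul_continuousOn aF.continuousOn)
      (aF.intervalIntegrable_deriv.continuousOn_mul aG.continuousOn)
  have h3 : ∫ x in (-R)..R, G x * deriv (fun x => f x * f x) x =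
      ∫ x in (-R)..R, 2 * (G x * f x * deriv f x) := by
    apply intervalIntegral.integral_congr_ae
    filter_upwards [af.ae_differentiableAt] with x hx hx'
    have h4 := (hx (uIoc_subset_uIcc hx')).hasDerivAt
    have h5 : HasDerivAt (fun x => f x * f x) (deriv f x * f x + f x * deriv f x) x := h4.mul h4
    rw [h5.deriv]
    ring
  have h5 : ∫ x in (-R)..R, deriv G x * (f x * f x) = ∫ x, deriv G x * f x ^ 2 := by
    rw [intervalIntegral.integral_eq_integral_of_support_subset]
    · congr 1
      funext x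
      ring
    · intro x hx
      refine hsub x fun h => hx ?_
      simp [h]
  have h6 : ∫ x in (-R)..R, 2 * (G x * f x * deriv f x) = 2 * ∫ x, G x * f x * deriv f x := by
    rw [intervalIntegral.integral_eq_integral_of_support_subset, integral_const_mul]
    intro x hx
    refine hsub x fun h => hx ?_
    simp [h]
  rw [h2, h3, h5, h6] at h1
  simp only [mul_zero, sub_self] at h1
  linarith

/-- the one-dimensional Faber-Krahn inequality -/
theorem fk1 {f : ℝ → ℝ} (hf : ∃ K : ℝ≥0, LipschitzWith K f) (hc : HasCompactSupport f) :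
    Real.pi ^ 2 * ∫ y, f y ^ 2 ≤ (volume.real {y | f y ≠ 0}) ^ 2 * ∫ y, (deriv f y) ^ 2 := by
  obtain ⟨K, hK⟩ := hf
  obtain ⟨R, hR0, hR⟩ := supp_bd hc
  have hfc : Continuous f := hK.continuous
  set U : Set ℝ := {y | f y ≠ 0} with hU
  have hUo : IsOpen U := isOpen_ne_fun hfc continuous_const
  have hUm : MeasurableSet U := hUo.measurableSet
  have hUsub : U ⊆ Ioc (-R) R := fun x hx => Ioo_subset_Ioc_self (hR x (subset_tsupport f hx))
  have hUfin : volume U ≠ ⊤ := ne_top_of_le_ne_top (by simp) (measure_mono hUsub)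
  set α := volume.real U with hα
  have hα0 : 0 ≤ α := measureReal_nonneg
  obtain ⟨M, hM⟩ : ∃ M, ∀ x, |f x| ≤ M := by
    obtain ⟨M, hM⟩ := hc.exists_bound_of_continuous hfc
    exact ⟨M, fun x => by have := hM x; rwa [Real.norm_eq_abs] at this⟩
  have hM0 : 0 ≤ M := (abs_nonneg _).trans (hM 0)
  -- the cumulated measure
  set φ : ℝ → ℝ := fun y => volume.real (U ∩ Iic y) with hφ
  have hφ0 : ∀ y, 0 ≤ φ y := fun y => measureReal_nonneg
  have hφα : ∀ y, φ y ≤ α := fun y => measureReal_mono inter_subset_left hUfin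
  have hφd : ∀ x y, x ≤ y → φ y = φ x + volume.real (U ∩ Ioc x y) := by
    intro x y hxy
    have e : U ∩ Iic y = (U ∩ Iic x) ∪ (U ∩ Ioc x y) := by
      rw [← inter_union_distrib_left, Iic_union_Ioc_eq_Iic hxy]
    show volume.real (U ∩ Iic y) = _
    rw [e, measureReal_union]
    · rw [Set.disjoint_left]
      rintro z ⟨-, h1⟩ ⟨-, h2⟩
      exact not_lt.2 h1 h2.1
    · exact hUm.inter measurableSet_Ioc
  have hφl : LipschitzWith 1 φ := by
    refine LipschitzWith.of_le_add_mul 1 fun x y => ?_
    rw [NNReal.coe_one, one_mul, Real.dist_eq]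
    rcases le_total x y with h | h
    · have := hφd x y h
      have h1 : 0 ≤ volume.real (U ∩ Ioc x y) := measureReal_nonneg
      linarith [abs_nonneg (x - y)]
    · rw [hφd y x h]
      have h1 : volume.real (U ∩ Ioc y x) ≤ x - y := by
        refine (measureReal_mono inter_subset_right (by simp)).trans ?_
        rw [Real.volume_real_Ioc_of_le h]
      linarith [le_abs_self (x - y)]
  have hφ1 : ∀ x ∈ U, HasDerivAt φ 1 x := by
    intro x hx
    obtain ⟨ε, hε, hball⟩ := Metric.isOpen_iff.1 hUo x hx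
    have e : ∀ y ∈ Metric.ball x ε, φ y = φ x + (y - x) := by
      intro y hy
      rw [Metric.mem_ball, Real.dist_eq] at hy
      rcases le_total x y with h | h
      · rw [hφd x y h]
        have : U ∩ Ioc x y = Ioc x y := by
          refine inter_eq_right.2 fun z hz => hball ?_
          rw [Metric.mem_ball, Real.dist_eq, abs_of_pos (by linarith [hz.1])]
          rw [abs_of_nonneg (by linarith)] at hy
          linarith [hz.2]
        rw [this, Real.volume_real_Ioc_of_le h]
      · rw [hφd y x h]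
        have : U ∩ Ioc y x = Ioc y x := by
          refine inter_eq_right.2 fun z hz => hball ?_
          rw [Metric.mem_ball, Real.dist_eq, abs_of_nonpos (by linarith [hz.2])]
          rw [abs_of_nonpos (by linarith)] at hy
          linarith [hz.1]
        rw [this, Real.volume_real_Ioc_of_le h]
        ring
    have h1 : HasDerivAt (fun y => φ x + (y - x)) 1 x :=
      ((hasDerivAt_id x).sub_const x).const_add (φ x)
    refine h1.congr_of_eventuallyEq ?_
    filter_upwards [Metric.ball_mem_nhds x hε] with y hy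
    exact e y hy
  -- the inequality for larger constants
  have key : ∀ α', α < α' → Real.pi ^ 2 * ∫ y, f y ^ 2 ≤ α' ^ 2 * ∫ y, (deriv f y) ^ 2 := by
    intro α' hα'
    have hα'0 : 0 < α' := lt_of_le_of_lt hα0 hα'
    set δ := (α' - α) / 2 with hδ
    have hδ0 : 0 < δ := by rw [hδ]; linarith
    have hπ := Real.pi_pos
    set ψ : ℝ → ℝ := fun t => -(Real.pi / α') *
      (Real.cos (Real.pi / α' * (t + δ)) / Real.sin (Real.pi / α' * (t + δ))) with hψ
    have hang : ∀ t, 0 ≤ t → t ≤ α → 0 < Real.sin (Real.pi / α' * (t + δ)) := by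
      intro t h0 h1
      apply Real.sin_pos_of_pos_of_lt_pi
      · positivity
      · have h2 : t + δ < α' := by rw [hδ]; linarith
        calc Real.pi / α' * (t + δ) < Real.pi / α' * α' :=
              mul_lt_mul_of_pos_left h2 (by positivity)
          _ = Real.pi := by field_simp
    have hψc : ContDiffOn ℝ 1 ψ (Icc 0 α) := by
      have h1 : ContDiff ℝ 1 fun t : ℝ => Real.pi / α' * (t + δ) := by fun_prop
      refine contDiffOn_const.mul ((Real.contDiff_cos.comp h1).contDiffOn.div
        (Real.contDiff_sin.comp h1).contDiffOn fun t ht => (hang t ht.1 ht.2).ne')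
    obtain ⟨C, hC⟩ := hψc.exists_lipschitzOnWith one_ne_zero (convex_Icc 0 α) isCompact_Icc
    set G : ℝ → ℝ := fun y => ψ (φ y) with hG
    have hGl : LipschitzWith (C * 1) G := by
      rw [← lipschitzOnWith_univ]
      exact hC.comp (hφl.lipschitzOnWith (s := univ)) fun y _ => ⟨hφ0 y, hφα y⟩
    have hGd : ∀ x ∈ U, deriv G x = Real.pi ^ 2 / α' ^ 2 + G x ^ 2 := by
      intro x hx
      have hs := (hang (φ x) (hφ0 x) (hφα x)).ne'
      have h1 : HasDerivAt (fun y => Real.pi / α' * (φ y + δ)) (Real.pi / α' * 1) x :=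
        ((hφ1 x hx).add_const δ).const_mul _
      have h2 := h1.cos.div h1.sin hs
      have h3 := h2.const_mul (-(Real.pi / α'))
      have h4 : deriv G x = _ := h3.deriv
      have h5 : G x = -(Real.pi / α') * (Real.cos (Real.pi / α' * (φ x + δ)) /
        Real.sin (Real.pi / α' * (φ x + δ))) := rfl
      rw [h4, h5]
      generalize Real.cos (Real.pi / α' * (φ x + δ)) = c
      generalize Real.sin (Real.pi / α' * (φ x + δ)) = d at hs
      field_simp
      ring
    have hGb : ∃ B, ∀ x, |G x| ≤ B := by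
      obtain ⟨B, hB⟩ := (isCompact_Icc (a := (0 : ℝ)) (b := α)).exists_bound_of_continuousOn
        hψc.continuousOn
      exact ⟨B, fun x => by
        have := hB (φ x) ⟨hφ0 x, hφα x⟩
        rwa [Real.norm_eq_abs] at this⟩
    obtain ⟨B, hB⟩ := hGb
    have hB0 : 0 ≤ B := (abs_nonneg _).trans (hB 0)
    have hI := ibp ⟨_, hGl⟩ ⟨K, hK⟩ hc
    have e1 : (fun x => deriv G x * f x ^ 2) =
        fun x => Real.pi ^ 2 / α' ^ 2 * f x ^ 2 + G x ^ 2 * f x ^ 2 := by
      funext x
      by_cases hx : x ∈ U
      · rw [hGd x hx]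
        ring
      · have : f x = 0 := not_not.1 hx
        rw [this]
        ring
    have hsupp : ∀ x, f x ≠ 0 → x ∈ Ioc (-R) R := fun x hx => hUsub hx
    have i1 : Integrable fun x => f x ^ 2 :=
      int_of_bdd (C := M ^ 2) (R := R) (hfc.pow 2).aestronglyMeasurable
        (fun x => by rw [abs_pow]; exact pow_le_pow_left₀ (abs_nonneg _) (hM x) 2)
        (fun x hx => hsupp x fun h => hx (by simp [h]))
    have i2 : Integrable fun x => G x ^ 2 * f x ^ 2 :=
      int_of_bdd (C := B ^ 2 * M ^ 2) (R := R)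
        ((hGl.continuous.pow 2).mul (hfc.pow 2)).aestronglyMeasurable
        (fun x => by
          rw [abs_mul, abs_pow, abs_pow]
          exact mul_le_mul (pow_le_pow_left₀ (abs_nonneg _) (hB x) 2)
            (pow_le_pow_left₀ (abs_nonneg _) (hM x) 2) (by positivity) (by positivity))
        (fun x hx => hsupp x fun h => hx (by simp [h]))
    have hdm : Measurable (deriv f) := measurable_deriv f
    have i3 : Integrable fun x => deriv f x ^ 2 :=
      int_of_bdd (C := (K : ℝ) ^ 2) (R := R) (hdm.pow_const 2).aestronglyMeasurable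
        (fun x => by rw [abs_pow]; exact pow_le_pow_left₀ (abs_nonneg _) (deriv_bd hK x) 2)
        (fun x hx => Ioo_subset_Ioc_self (hR x (support_deriv_subset fun h => hx (by simp [h]))))
    have i4 : Integrable fun x => G x * f x * deriv f x :=
      int_of_bdd (C := B * M * K) (R := R)
        (((hGl.continuous.mul hfc).measurable.mul hdm)).aestronglyMeasurable
        (fun x => by
          rw [abs_mul, abs_mul]
          exact mul_le_mul (mul_le_mul (hB x) (hM x) (abs_nonneg _) hB0) (deriv_bd hK x)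
            (abs_nonneg _) (by positivity))
        (fun x hx => hsupp x fun h => hx (by simp [h]))
    have hpos : 0 ≤ ∫ x, (deriv f x + G x * f x) ^ 2 := integral_nonneg fun x => sq_nonneg _
    have e2 : (fun x => (deriv f x + G x * f x) ^ 2) =
        fun x => deriv f x ^ 2 + 2 * (G x * f x * deriv f x) + G x ^ 2 * f x ^ 2 := by
      funext x
      ring
    have e3 : ∫ x, (deriv f x ^ 2 + 2 * (G x * f x * deriv f x) + G x ^ 2 * f x ^ 2) =
        (∫ x, deriv f x ^ 2) + 2 * (∫ x, G x * f x * deriv f x) + ∫ x, G x ^ 2 * f x ^ 2 := by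
      have i5 : Integrable fun x => deriv f x ^ 2 + 2 * (G x * f x * deriv f x) :=
        i3.add (i4.const_mul 2)
      rw [integral_add i5 i2, integral_add i3 (i4.const_mul 2), integral_const_mul]
    rw [e2, e3] at hpos
    rw [e1, integral_add (i1.const_mul _) i2, integral_const_mul] at hI
    have h7 : Real.pi ^ 2 / α' ^ 2 * ∫ x, f x ^ 2 ≤ ∫ x, deriv f x ^ 2 := by linarith
    have h8 : 0 < α' ^ 2 := by positivity
    have h9 := mul_le_mul_of_nonneg_left h7 h8.le
    calc Real.pi ^ 2 * ∫ y, f y ^ 2 = α' ^ 2 * (Real.pi ^ 2 / α' ^ 2 * ∫ x, f x ^ 2) := by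
          field_simp
      _ ≤ _ := h9
  have ht : Tendsto (fun x : ℝ => x ^ 2 * ∫ y, (deriv f y) ^ 2) (𝓝[>] α)
      (𝓝 (α ^ 2 * ∫ y, (deriv f y) ^ 2)) := by
    have : Continuous fun x : ℝ => x ^ 2 * ∫ y, (deriv f y) ^ 2 := by fun_prop
    exact (this.tendsto α).mono_left nhdsWithin_le_nhds
  refine ge_of_tendsto ht ?_
  filter_upwards [self_mem_nhdsWithin] with x hx
  exact key x hx

end PL3
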