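import Pool.Agent.Lib.PL3.OneD
import Pool.Agent.Lib.DK4.Loc

/-!
Module PL3.Piece: the inequality for one piece in the half plane `{x > 0}`.

PROOF.  Write `f(x,y) = f ⟨x, y⟩`, `a x = volume.real {y | 0 < f ⟨x, y⟩}` (measurable in `x`:
`measurable_measure_prodMk_left`, bounded and zero for large `x` because `f` has compact support).  By Fubini
(`Complex.volume_preserving_equiv_real_prod`, `setIntegral_prod`, `integral_prod`)
`∫ x in Ioi 0, a x = volume.real ({0 < re} ∩ {0 < f})` and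
`∫ x in Ioc 0 Y, a x = volume.real ({0 < re ≤ Y} ∩ {0 < f})`.
Suppose both alternatives fail.  Then the hypotheses of `Cert` hold and we get `G`.
Show `0 ≤ en 1 {0 < re} f`, a contradiction:
* `‖fderiv ℝ f z‖² = (fderiv ℝ f z 1)² + (fderiv ℝ f z I)²` (a real linear functional on ℂ);
  (at least `≥` is needed: `L z ≤ ‖L‖ ‖z‖` with `z = L 1 + (L I) I`);
* for a.e. `z` `f` is differentiable at `z` (Rademacher), so for a.e. `x`, a.e. `y`:
  `fderiv ℝ f ⟨x,y⟩ 1 = deriv (fun s => f ⟨s, y⟩) x` and `fderiv ℝ f ⟨x,y⟩ I = deriv (fun s => f ⟨x, s⟩) y`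
  (and similarly for a.e. `y`, a.e. `x`);
* y-direction: for every `x` with `0 < a x`, `fk1` gives
  `∫ (∂_y f)² dy ≥ π²/(a x)² ∫ f² dy`; if `a x = 0` then `f ⟨x, ·⟩ = 0` (an open null set is empty);
  hence `∫_{x>0} ∫ (∂_y f)² ≥ ∫_{x>0} ∫ b(x) f²`, `b x = π²/(a x)²` if `0 < a x`, else anything `≤` ..., and
  `b x ≥ 1 + G² - G'` for a.e. `x > 0` with `0 < a x`;
  so `∫_{x>0} ∫ (∂_y f)² ≥ ∫_{x>0} ∫ (1 + G² - G') f²` (the right integrand is integrable: `G` is bounded on the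
  support, `|deriv G| ≤ K`, `deriv G` is measurable);
* x-direction: for every `y`, `ibp` with `G` and `f ⟨·, y⟩`: `∫ G' f² dx = -2 ∫ G f ∂_x f dx`, and
  `0 ≤ ∫_{x>0} (∂_x f + G f)² = ∫_{x>0} (∂_x f)² + 2 G f ∂_x f + G² f²`.  As `G = 0` on `x ≤ 0`, `deriv G = 0` for `x < 0`,
  and the integrals with `G` over `ℝ` are integrals over `x > 0`.  Therefore
  `∫_{x>0} ∫ (∂_x f)² ≥ ∫_{x>0} ∫ (G' - G²) f²`.
* add up: `∫_{x>0} ∫ |∇f|² ≥ ∫_{x>0} ∫ f²`.
-/

open MeasureTheory Set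
open scoped ContDiff NNReal

namespace PL3

open DK4 PL4

namespace PieceAux

/-! ### Fubini -/

theorem int_prod {g : ℂ → ℝ} (hg : Integrable g) :
    Integrable (fun p : ℝ × ℝ => g ⟨p.1, p.2⟩) := by
  have e := Complex.volume_preserving_equiv_real_prod
  have h1 := (e.integrable_comp_emb Complex.measurableEquivRealProd.measurableEmbedding
    (g := fun p : ℝ × ℝ => g ⟨p.1, p.2⟩)).1
  exact h1 hg

theorem ae_prod {P : ℂ → Prop} (h : ∀ᵐ z : ℂ, P z) : ∀ᵐ p : ℝ × ℝ, P ⟨p.1, p.2⟩ := by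
  have e := Complex.volume_preserving_equiv_real_prod.symm
  exact e.quasiMeasurePreserving.ae h

theorem ae_x {P : ℂ → Prop} (h : ∀ᵐ z : ℂ, P z) : ∀ᵐ x : ℝ, ∀ᵐ y : ℝ, P ⟨x, y⟩ := by
  have h1 := ae_prod h
  rw [Measure.volume_eq_prod] at h1
  exact Measure.ae_ae_of_ae_prod h1

theorem ae_y {P : ℂ → Prop} (h : ∀ᵐ z : ℂ, P z) : ∀ᵐ y : ℝ, ∀ᵐ x : ℝ, P ⟨x, y⟩ := by
  have h1 := ae_prod h
  rw [Measure.volume_eq_prod] at h1
  have h2 : ∀ᵐ p : ℝ × ℝ ∂(volume.prod volume), P ⟨p.2, p.1⟩ :=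
    (Measure.measurePreserving_swap (μ := (volume : Measure ℝ))
      (ν := (volume : Measure ℝ))).quasiMeasurePreserving.ae h1
  exact Measure.ae_ae_of_ae_prod h2

theorem int_restr {S : Set ℝ} {g : ℂ → ℝ} (hg : Integrable g) :
    Integrable (fun p : ℝ × ℝ => g ⟨p.1, p.2⟩) ((volume.restrict S).prod volume) := by
  have h3 := int_prod hg
  rw [Measure.volume_eq_prod] at h3
  have h4 := h3.integrableOn (s := S ×ˢ univ)
  rwa [IntegrableOn, ← Measure.prod_restrict, Measure.restrict_univ] at h4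

theorem restr {S : Set ℝ} (g : ℂ → ℝ) :
    ∫ z in {z : ℂ | z.re ∈ S}, g z =
      ∫ p : ℝ × ℝ, g ⟨p.1, p.2⟩ ∂((volume.restrict S).prod volume) := by
  have e := Complex.volume_preserving_equiv_real_prod
  have h1 : {z : ℂ | z.re ∈ S} = Complex.measurableEquivRealProd ⁻¹' (S ×ˢ univ) := by
    ext z
    simp
  have h2 := e.setIntegral_preimage_emb Complex.measurableEquivRealProd.measurableEmbedding
    (fun p : ℝ × ℝ => g ⟨p.1, p.2⟩) (S ×ˢ univ)
  rw [h1]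
  refine h2.trans ?_
  rw [Measure.volume_eq_prod, ← Measure.prod_restrict, Measure.restrict_univ]

/-- Fubini, sections in the direction `y` -/
theorem fub_x (S : Set ℝ) {g : ℂ → ℝ} (hg : Integrable g) :
    ∫ z in {z : ℂ | z.re ∈ S}, g z = ∫ x in S, ∫ y, g ⟨x, y⟩ := by
  rw [restr, integral_prod _ (int_restr hg)]

/-- Fubini, sections in the direction `x` -/
theorem fub_y (S : Set ℝ) {g : ℂ → ℝ} (hg : Integrable g) :
    ∫ z in {z : ℂ | z.re ∈ S}, g z = ∫ y, ∫ x in S, g ⟨x, y⟩ := by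
  rw [restr, integral_prod_symm _ (int_restr hg)]

theorem int_x (S : Set ℝ) {g : ℂ → ℝ} (hg : Integrable g) :
    IntegrableOn (fun x : ℝ => ∫ y : ℝ, g ⟨x, y⟩) S :=
  (int_restr hg).integral_prod_left

theorem int_y (S : Set ℝ) {g : ℂ → ℝ} (hg : Integrable g) :
    Integrable (fun y : ℝ => ∫ x in S, g ⟨x, y⟩) :=
  (int_restr hg).integral_prod_right

/-- bounded measurable functions with compact support are integrable -/
theorem int_bdd {α : Type*} [TopologicalSpace α] [MeasurableSpace α] {μ : Measure α}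
    [IsFiniteMeasureOnCompacts μ] {g : α → ℝ} (hm : AEStronglyMeasurable g μ) {T : Set α}
    (hT : IsCompact T) (h0 : ∀ z, z ∉ T → g z = 0) {C : ℝ} (hC : ∀ z, |g z| ≤ C) :
    Integrable g μ :=
  (integrableOn_iff_integrable_of_support_subset (s := T) (fun z hz => by
    by_contra h
    exact hz (h0 z h))).1
    (Measure.integrableOn_of_bounded hT.measure_lt_top.ne hm (Filter.Eventually.of_forall hC))

/-! ### one dimension -/

theorem xdir {G φ : ℝ → ℝ} (hG : ∃ K : ℝ≥0, LipschitzWith K G) (hG0 : ∀ x ≤ 0, G x = 0)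
    (hφ : ∃ K : ℝ≥0, LipschitzWith K φ) (hc : HasCompactSupport φ) :
    ∫ x in Ioi (0:ℝ), (deriv G x - G x ^ 2) * φ x ^ 2 ≤ ∫ x in Ioi (0:ℝ), (deriv φ x) ^ 2 := by
  have hb := ibp hG hφ hc
  obtain ⟨K, hK⟩ := hG
  obtain ⟨L, hL⟩ := hφ
  have cG := hK.continuous
  have cφ := hL.continuous
  obtain ⟨M, hM⟩ := cφ.bounded_above_of_compact_support hc
  have hz : ∀ x, x ∉ tsupport φ → φ x = 0 := fun x hx => image_eq_zero_of_notMem_tsupport hx
  have hz' : ∀ x, x ∉ tsupport φ → deriv φ x = 0 := fun x hx => by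
    by_contra h
    exact hx (support_deriv_subset h)
  have hK' : ∀ x, |deriv G x| ≤ K := fun x => norm_deriv_le_of_lipschitz hK
  have hL' : ∀ x, |deriv φ x| ≤ L := fun x => norm_deriv_le_of_lipschitz hL
  have i1 : Integrable (fun x => (deriv φ x) ^ 2) := by
    refine int_bdd (measurable_deriv φ |>.pow_const 2).aestronglyMeasurable hc
      (fun x hx => by simp [hz' x hx]) (C := (L:ℝ) ^ 2) (fun x => ?_)
    rw [abs_pow]
    exact pow_le_pow_left₀ (abs_nonneg _) (hL' x) 2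
  have i2 : Integrable (fun x => deriv G x * φ x ^ 2) := by
    refine int_bdd ((measurable_deriv G).mul (cφ.measurable.pow_const 2)).aestronglyMeasurable hc
      (fun x hx => by simp [hz x hx]) (C := (K:ℝ) * M ^ 2) (fun x => ?_)
    rw [abs_mul, abs_pow]
    exact mul_le_mul (hK' x) (pow_le_pow_left₀ (abs_nonneg _) (hM x) 2) (by positivity)
      K.coe_nonneg
  have c4 : HasCompactSupport (fun x => G x * φ x) := hc.mul_left
  obtain ⟨M', hM'⟩ := (cG.mul cφ).bounded_above_of_compact_support c4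
  have i3 : Integrable (fun x => G x * φ x * deriv φ x) := by
    refine int_bdd ((cG.mul cφ).measurable.mul (measurable_deriv φ)).aestronglyMeasurable hc
      (fun x hx => by simp [hz x hx]) (C := M' * L) (fun x => ?_)
    rw [abs_mul]
    exact mul_le_mul (hM' x) (hL' x) (abs_nonneg _) ((norm_nonneg _).trans (hM' x))
  have i4 : Integrable (fun x => G x ^ 2 * φ x ^ 2) := by
    refine Continuous.integrable_of_hasCompactSupport ((cG.pow 2).mul (cφ.pow 2)) ?_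
    exact (hc.comp_left (g := fun x : ℝ => x ^ 2) (by simp)).mul_left
  have e1 : ∫ x in Ioi (0:ℝ), deriv G x * φ x ^ 2 = ∫ x, deriv G x * φ x ^ 2 := by
    refine setIntegral_eq_integral_of_ae_compl_eq_zero ?_
    have h0 : ∀ᵐ x : ℝ, x ≠ 0 := by
      rw [ae_iff]
      simp
    filter_upwards [h0] with x hx hx'
    have hx2 : x < 0 := lt_of_le_of_ne (not_lt.1 hx') hx
    have : deriv G x = 0 := by
      have h1 : G =ᶠ[nhds x] fun _ => 0 := by
        filter_upwards [Iio_mem_nhds hx2] with w hw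
        exact hG0 w (le_of_lt hw)
      rw [h1.deriv_eq, deriv_const]
    rw [this, zero_mul]
  have e2 : ∫ x in Ioi (0:ℝ), G x * φ x * deriv φ x = ∫ x, G x * φ x * deriv φ x := by
    refine setIntegral_eq_integral_of_forall_compl_eq_zero ?_
    intro x hx
    rw [hG0 x (not_lt.1 hx), zero_mul, zero_mul]
  have h0 : 0 ≤ ∫ x in Ioi (0:ℝ), (deriv φ x + G x * φ x) ^ 2 :=
    integral_nonneg fun x => sq_nonneg _
  have e3 : ∫ x in Ioi (0:ℝ), (deriv φ x + G x * φ x) ^ 2 =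
      (∫ x in Ioi (0:ℝ), (deriv φ x) ^ 2) + 2 * (∫ x in Ioi (0:ℝ), G x * φ x * deriv φ x) +
        ∫ x in Ioi (0:ℝ), G x ^ 2 * φ x ^ 2 := by
    have i5 : IntegrableOn (fun x => (deriv φ x) ^ 2 + 2 * (G x * φ x * deriv φ x)) (Ioi (0:ℝ)) :=
      i1.integrableOn.add (i3.integrableOn.const_mul 2)
    rw [← integral_const_mul, ← integral_add i1.integrableOn (i3.integrableOn.const_mul 2),
      ← integral_add i5 i4.integrableOn]
    refine integral_congr_ae (Filter.Eventually.of_forall fun x => ?_)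
    simp only
    ring
  have e4 : ∫ x in Ioi (0:ℝ), (deriv G x - G x ^ 2) * φ x ^ 2 =
      (∫ x in Ioi (0:ℝ), deriv G x * φ x ^ 2) - ∫ x in Ioi (0:ℝ), G x ^ 2 * φ x ^ 2 := by
    rw [← integral_sub i2.integrableOn i4.integrableOn]
    refine integral_congr_ae (Filter.Eventually.of_forall fun x => ?_)
    simp only
    ring
  rw [e4, e1, hb]
  rw [e3, e2] at h0
  linarith

/-! ### derivatives along the axes -/

theorem deriv_re {f : ℂ → ℝ} {x y : ℝ} (h : DifferentiableAt ℝ f ⟨x, y⟩) :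
    deriv (fun s : ℝ => f ⟨s, y⟩) x = fderiv ℝ f ⟨x, y⟩ 1 := by
  have h1 : HasDerivAt (fun s : ℝ => (⟨s, y⟩ : ℂ)) 1 x := by
    have h2 := (Complex.ofRealCLM.hasDerivAt (x := x)).add_const (⟨0, y⟩ : ℂ)
    refine (h2.congr_of_eventuallyEq (Filter.Eventually.of_forall fun s => ?_)).congr_deriv (by simp)
    apply Complex.ext <;> simp
  exact (h.hasFDerivAt.comp_hasDerivAt x h1).deriv

theorem deriv_im {f : ℂ → ℝ} {x y : ℝ} (h : DifferentiableAt ℝ f ⟨x, y⟩) :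
    deriv (fun s : ℝ => f ⟨x, s⟩) y = fderiv ℝ f ⟨x, y⟩ Complex.I := by
  have h1 : HasDerivAt (fun s : ℝ => (⟨x, s⟩ : ℂ)) Complex.I y := by
    have h2 := ((Complex.ofRealCLM.hasDerivAt (x := y)).mul_const Complex.I).add_const (x : ℂ)
    refine (h2.congr_of_eventuallyEq (Filter.Eventually.of_forall fun s => ?_)).congr_deriv (by simp)
    apply Complex.ext <;> simp
  exact (h.hasFDerivAt.comp_hasDerivAt y h1).deriv

theorem norm_ge (L : ℂ →L[ℝ] ℝ) : L 1 ^ 2 + L Complex.I ^ 2 ≤ ‖L‖ ^ 2 := by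
  set P := L 1 with hP
  set Q := L Complex.I with hQ
  have h1 : L ⟨P, Q⟩ = P ^ 2 + Q ^ 2 := by
    have e : (⟨P, Q⟩ : ℂ) = P • (1 : ℂ) + Q • Complex.I := by
      apply Complex.ext <;> simp
    rw [e, map_add, map_smul, map_smul, ← hP, ← hQ, smul_eq_mul, smul_eq_mul]
    ring
  have h2 := L.le_opNorm ⟨P, Q⟩
  have h3 : ‖(⟨P, Q⟩ : ℂ)‖ ^ 2 = P ^ 2 + Q ^ 2 := by
    rw [Complex.sq_norm, Complex.normSq_mk]
    ring
  rw [h1, Real.norm_eq_abs, abs_of_nonneg (by positivity)] at h2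
  have h4 : 0 ≤ ‖(⟨P, Q⟩ : ℂ)‖ := norm_nonneg _
  have h5 : 0 ≤ ‖L‖ := norm_nonneg _
  rw [← h3] at h2 ⊢
  rcases eq_or_lt_of_le h4 with h6 | h6
  · rw [← h6]
    simp
  · have h7 : ‖(⟨P, Q⟩ : ℂ)‖ ≤ ‖L‖ := by
      by_contra h8
      push Not at h8
      nlinarith
    exact pow_le_pow_left₀ h4 h7 2

/-! ### sections -/

section

variable {f : ℂ → ℝ}

theorem lip_y {K : ℝ≥0} (hK : LipschitzWith K f) (x : ℝ) :
    LipschitzWith K (fun y : ℝ => f ⟨x, y⟩) := by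
  refine LipschitzWith.of_dist_le_mul fun y y' => (hK.dist_le_mul _ _).trans ?_
  refine mul_le_mul_of_nonneg_left (le_of_eq ?_) K.coe_nonneg
  rw [Complex.dist_eq, Real.dist_eq]
  have e : (⟨x, y⟩ : ℂ) - ⟨x, y'⟩ = ((y - y' : ℝ) : ℂ) * Complex.I := by
    apply Complex.ext <;> simp
  rw [e, norm_mul, Complex.norm_I, mul_one, Complex.norm_real, Real.norm_eq_abs]

theorem lip_x {K : ℝ≥0} (hK : LipschitzWith K f) (y : ℝ) :
    LipschitzWith K (fun x : ℝ => f ⟨x, y⟩) := by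
  refine LipschitzWith.of_dist_le_mul fun x x' => (hK.dist_le_mul _ _).trans ?_
  refine mul_le_mul_of_nonneg_left (le_of_eq ?_) K.coe_nonneg
  rw [Complex.dist_eq, Real.dist_eq]
  have e : (⟨x, y⟩ : ℂ) - ⟨x', y⟩ = ((x - x' : ℝ) : ℂ) := by
    apply Complex.ext <;> simp
  rw [e, Complex.norm_real, Real.norm_eq_abs]

theorem exists_R (hc : HasCompactSupport f) : ∃ R : ℝ, 0 ≤ R ∧ ∀ x y : ℝ, f ⟨x, y⟩ ≠ 0 →
    |x| ≤ R ∧ |y| ≤ R := by
  obtain ⟨R, hR⟩ := hc.isBounded.subset_closedBall (0 : ℂ)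
  refine ⟨max R 0, le_max_right _ _, fun x y h => ?_⟩
  have h1 : (⟨x, y⟩ : ℂ) ∈ tsupport f := subset_tsupport f h
  have h2 := hR h1
  rw [mem_closedBall_zero_iff] at h2
  have h3 := Complex.abs_re_le_norm (⟨x, y⟩ : ℂ)
  have h4 := Complex.abs_im_le_norm (⟨x, y⟩ : ℂ)
  exact ⟨(h3.trans h2).trans (le_max_left _ _), (h4.trans h2).trans (le_max_left _ _)⟩

theorem cpt_y (hc : HasCompactSupport f) (x : ℝ) : HasCompactSupport (fun y : ℝ => f ⟨x, y⟩) := by
  obtain ⟨R, -, hR⟩ := exists_R hc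
  refine HasCompactSupport.intro (isCompact_Icc (a := -R) (b := R)) fun y hy => ?_
  by_contra h
  exact hy (abs_le.1 (hR x y h).2)

theorem cpt_x (hc : HasCompactSupport f) (y : ℝ) : HasCompactSupport (fun x : ℝ => f ⟨x, y⟩) := by
  obtain ⟨R, -, hR⟩ := exists_R hc
  refine HasCompactSupport.intro (isCompact_Icc (a := -R) (b := R)) fun x hx => ?_
  by_contra h
  exact hx (abs_le.1 (hR x y h).1)

/-- the lengths of the sections -/
noncomputable def aa (f : ℂ → ℝ) (x : ℝ) : ℝ := volume.real {y : ℝ | 0 < f ⟨x, y⟩}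

theorem aa_meas (hf : Continuous f) : Measurable (aa f) := by
  have h1 : Continuous (fun p : ℝ × ℝ => f ⟨p.1, p.2⟩) :=
    hf.comp (Complex.equivRealProdCLM.symm.continuous)
  have h2 : MeasurableSet {p : ℝ × ℝ | 0 < f ⟨p.1, p.2⟩} :=
    (isOpen_lt continuous_const h1).measurableSet
  exact (measurable_measure_prodMk_left (ν := (volume : Measure ℝ)) h2).ennreal_toReal

theorem aa_bdd (hc : HasCompactSupport f) : ∃ M, ∀ x, aa f x ≤ M := by
  obtain ⟨R, hR0, hR⟩ := exists_R hc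
  refine ⟨volume.real (Icc (-R) R), fun x => ?_⟩
  refine measureReal_mono (fun y hy => abs_le.1 (hR x y (ne_of_gt hy)).2) ?_
  exact isCompact_Icc.measure_lt_top.ne

theorem aa_zero (hc : HasCompactSupport f) : ∃ R, ∀ x, R < x → aa f x = 0 := by
  obtain ⟨R, hR0, hR⟩ := exists_R hc
  refine ⟨R, fun x hx => ?_⟩
  have : {y : ℝ | 0 < f ⟨x, y⟩} = ∅ := by
    ext y
    simp only [mem_ofPred_eq, mem_empty_iff_false, iff_false]
    intro h
    have h1 := (hR x y (ne_of_gt h)).1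
    have h2 := le_abs_self x
    linarith
  unfold aa
  rw [this, measureReal_empty]

theorem aa_int (hf : Continuous f) (hc : HasCompactSupport f) (S : Set ℝ)
    (hS : MeasurableSet S) :
    ∫ x in S, aa f x = volume.real ({z : ℂ | z.re ∈ S} ∩ {z | 0 < f z}) := by
  have hm : MeasurableSet {z : ℂ | 0 < f z} := (isOpen_lt continuous_const hf).measurableSet
  have hmS : MeasurableSet {z : ℂ | z.re ∈ S} := Complex.measurable_re hS
  have hi : Integrable ({z : ℂ | 0 < f z}.indicator (fun _ => (1 : ℝ))) := by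
    refine int_bdd (measurable_const.indicator hm).aestronglyMeasurable hc (fun z hz => ?_)
      (C := 1) (fun z => ?_)
    · rw [indicator_of_notMem]
      intro h
      exact hz (subset_tsupport f (ne_of_gt h))
    · by_cases h : z ∈ {z : ℂ | 0 < f z}
      · rw [indicator_of_mem h]; simp
      · rw [indicator_of_notMem h]; simp
  have h1 := fub_x S hi
  have h2 : ∀ x : ℝ, ∫ y : ℝ, ({z : ℂ | 0 < f z}.indicator (fun _ => (1 : ℝ))) ⟨x, y⟩ = aa f x := by
    intro x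
    have h3 : MeasurableSet {y : ℝ | 0 < f ⟨x, y⟩} := by
      have h4 : Continuous (fun y : ℝ => f ⟨x, y⟩) := by
        have : Continuous (fun p : ℝ × ℝ => f ⟨p.1, p.2⟩) :=
          hf.comp (Complex.equivRealProdCLM.symm.continuous)
        exact this.comp (Continuous.prodMk_right x)
      exact (isOpen_lt continuous_const h4).measurableSet
    have h5 : (fun y : ℝ => ({z : ℂ | 0 < f z}.indicator (fun _ => (1 : ℝ))) ⟨x, y⟩) =
        {y : ℝ | 0 < f ⟨x, y⟩}.indicator (fun _ => (1 : ℝ)) := by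
      funext y
      by_cases h : 0 < f ⟨x, y⟩
      · rw [indicator_of_mem (show (⟨x, y⟩ : ℂ) ∈ {z : ℂ | 0 < f z} from h),
          indicator_of_mem (show y ∈ {y : ℝ | 0 < f ⟨x, y⟩} from h)]
      · rw [indicator_of_notMem (show (⟨x, y⟩ : ℂ) ∉ {z : ℂ | 0 < f z} from h),
          indicator_of_notMem (show y ∉ {y : ℝ | 0 < f ⟨x, y⟩} from h)]
    rw [h5, integral_indicator_const _ h3, smul_eq_mul, mul_one]
    rfl
  simp only [h2] at h1
  rw [← h1, integral_indicator_const _ hm, smul_eq_mul, mul_one, measureReal_restrict_apply hm,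
    inter_comm]

/-- the inequality in the direction `y` -/
theorem ydir {f : ℂ → ℝ} (hf : Adm f) (h0 : ∀ z, 0 ≤ f z) {x c : ℝ}
    (h : 0 < aa f x → c ≤ Real.pi ^ 2 / (aa f x) ^ 2) :
    c * ∫ y : ℝ, f ⟨x, y⟩ ^ 2 ≤ ∫ y : ℝ, (deriv (fun s : ℝ => f ⟨x, s⟩) y) ^ 2 := by
  obtain ⟨K, hK⟩ := hf.lip
  have hl := lip_y hK x
  have hc := cpt_y hf.cpt x
  have h1 := fk1 (f := fun y : ℝ => f ⟨x, y⟩) ⟨K, hl⟩ hc
  have h2 : {y : ℝ | f ⟨x, y⟩ ≠ 0} = {y : ℝ | 0 < f ⟨x, y⟩} := by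
    ext y
    exact ⟨fun h => lt_of_le_of_ne (h0 _) (Ne.symm h), fun h => ne_of_gt h⟩
  rw [h2] at h1
  change _ ≤ (aa f x) ^ 2 * _ at h1
  have h3 : 0 ≤ ∫ y : ℝ, f ⟨x, y⟩ ^ 2 := integral_nonneg fun y => sq_nonneg _
  have h4 : 0 ≤ ∫ y : ℝ, (deriv (fun s : ℝ => f ⟨x, s⟩) y) ^ 2 :=
    integral_nonneg fun y => sq_nonneg _
  rcases eq_or_lt_of_le (measureReal_nonneg : 0 ≤ aa f x) with h5 | h5
  · have h6 : {y : ℝ | 0 < f ⟨x, y⟩} = ∅ := by
      have ho : IsOpen {y : ℝ | 0 < f ⟨x, y⟩} := isOpen_lt continuous_const hl.continuous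
      rw [← ho.measure_eq_zero_iff (μ := (volume : Measure ℝ))]
      have hfin : volume {y : ℝ | 0 < f ⟨x, y⟩} ≠ ⊤ := by
        obtain ⟨R, -, hR⟩ := exists_R hf.cpt
        refine ne_top_of_le_ne_top (isCompact_Icc (a := -R) (b := R)).measure_lt_top.ne
          (measure_mono fun y hy => abs_le.1 (hR x y (ne_of_gt hy)).2)
      exact (measureReal_eq_zero_iff hfin).1 h5.symm
    have h7 : ∀ y : ℝ, f ⟨x, y⟩ ^ 2 = 0 := by
      intro y
      have h8 : ¬ 0 < f ⟨x, y⟩ := fun h9 => by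
        have : y ∈ {y : ℝ | 0 < f ⟨x, y⟩} := h9
        rw [h6] at this
        exact this
      rw [le_antisymm (not_lt.1 h8) (h0 _)]
      ring
    simp only [h7, integral_zero, mul_zero]
    exact h4
  · have h6 := h h5
    calc c * ∫ y : ℝ, f ⟨x, y⟩ ^ 2 ≤ Real.pi ^ 2 / (aa f x) ^ 2 * ∫ y : ℝ, f ⟨x, y⟩ ^ 2 :=
          mul_le_mul_of_nonneg_right h6 h3
      _ = (Real.pi ^ 2 * ∫ y : ℝ, f ⟨x, y⟩ ^ 2) / (aa f x) ^ 2 := by ring
      _ ≤ ∫ y : ℝ, (deriv (fun s : ℝ => f ⟨x, s⟩) y) ^ 2 := by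
          rw [div_le_iff₀ (by positivity)]
          linarith

end

end PieceAux

open PieceAux in
theorem piece {Y s zl W : ℝ} (hC : Cert Y s zl W) {f : ℂ → ℝ} (hf : Adm f) (h0 : ∀ z, 0 ≤ f z)
    (hneg : en 1 {z : ℂ | 0 < z.re} f < 0) :
    kap * (1 + zl) ≤ volume.real ({z : ℂ | 0 < z.re} ∩ {z | 0 < f z}) ∨
    kap * W ≤ volume.real ({z : ℂ | 0 < z.re} ∩ {z | 0 < f z}) +
      s * volume.real ({z : ℂ | 0 < z.re ∧ z.re ≤ Y} ∩ {z | 0 < f z}) := by
  by_contra hcon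
  rw [not_or, not_le, not_le] at hcon
  obtain ⟨hc1, hc2⟩ := hcon
  have cf := hf.continuous
  have hcpt := hf.cpt
  have s1 : {z : ℂ | 0 < z.re} = {z : ℂ | z.re ∈ Ioi (0:ℝ)} := rfl
  have s2 : {z : ℂ | 0 < z.re ∧ z.re ≤ Y} = {z : ℂ | z.re ∈ Ioc 0 Y} := rfl
  rw [s1] at hc1 hc2 hneg
  rw [s2] at hc2
  rw [← aa_int cf hcpt (Ioi 0) measurableSet_Ioi] at hc1 hc2
  rw [← aa_int cf hcpt (Ioc 0 Y) measurableSet_Ioc] at hc2
  obtain ⟨G, hG, hG0, hGc⟩ := hC (aa f) (aa_meas cf) (fun x => measureReal_nonneg)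
    (aa_bdd hcpt) (aa_zero hcpt) hc1 hc2
  obtain ⟨K, hK⟩ := hf.lip
  obtain ⟨R, hR0, hR⟩ := exists_R hcpt
  obtain ⟨M, hM⟩ := cf.bounded_above_of_compact_support hcpt
  have hz : ∀ z, z ∉ tsupport f → f z = 0 := fun z hz => image_eq_zero_of_notMem_tsupport hz
  have hz' : ∀ z, z ∉ tsupport f → fderiv ℝ f z = 0 := fun z hz => by
    by_contra h
    exact hz (support_fderiv_subset ℝ h)
  have hb : ∀ z (w : ℂ), ‖w‖ = 1 → |fderiv ℝ f z w| ≤ K := by
    intro z w hw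
    have h1 := (fderiv ℝ f z).le_opNorm w
    rw [hw, mul_one] at h1
    exact h1.trans (norm_fderiv_le_of_lipschitz ℝ hK)
  have iw : ∀ w : ℂ, ‖w‖ = 1 → Integrable (fun z => (fderiv ℝ f z w) ^ 2) := by
    intro w hw
    refine int_bdd ((measurable_fderiv_apply_const ℝ f w).pow_const 2).aestronglyMeasurable hcpt
      (fun z h => by simp [hz' z h]) (C := (K:ℝ) ^ 2) (fun z => ?_)
    rw [abs_pow]
    exact pow_le_pow_left₀ (abs_nonneg _) (hb z w hw) 2
  have iP := iw 1 (by simp)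
  have iQ := iw Complex.I (by simp)
  have iF := hf.integrable_sq
  have iH : Integrable (fun z : ℂ => (deriv G z.re - G z.re ^ 2) * f z ^ 2) := by
    obtain ⟨KG, hKG⟩ := hG
    refine int_bdd (C := ((KG:ℝ) + (KG * R) ^ 2) * M ^ 2) ?_ hcpt (fun z h => by simp [hz z h])
      (fun z => ?_)
    · exact ((((measurable_deriv G).comp Complex.measurable_re).sub
        ((hKG.continuous.measurable.comp Complex.measurable_re).pow_const 2)).mul
        (cf.measurable.pow_const 2)).aestronglyMeasurable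
    · by_cases h : f z = 0
      · rw [h]
        simp only [ne_eq, OfNat.ofNat_ne_zero, not_false_eq_true, zero_pow, mul_zero, abs_zero]
        positivity
      · have h1 : |z.re| ≤ R := (hR z.re z.im h).1
        have h2 : |deriv G z.re| ≤ KG := norm_deriv_le_of_lipschitz hKG
        have h3 : |G z.re| ≤ KG * R := by
          have h4 := hKG.dist_le_mul z.re 0
          rw [Real.dist_eq, Real.dist_eq, hG0 0 le_rfl, sub_zero, sub_zero] at h4
          exact h4.trans (mul_le_mul_of_nonneg_left h1 KG.coe_nonneg)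
        rw [abs_mul, abs_pow]
        refine mul_le_mul ?_ (pow_le_pow_left₀ (abs_nonneg _) (hM z) 2) (by positivity)
          (by positivity)
        calc |deriv G z.re - G z.re ^ 2| ≤ |deriv G z.re| + |G z.re ^ 2| := abs_sub _ _
          _ ≤ KG + (KG * R) ^ 2 := by
            rw [abs_pow]
            exact add_le_add h2 (pow_le_pow_left₀ (abs_nonneg _) h3 2)
  have iFH : Integrable (fun z : ℂ => f z ^ 2 - (deriv G z.re - G z.re ^ 2) * f z ^ 2) :=
    iF.sub iH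
  have hd : ∀ᵐ z : ℂ, DifferentiableAt ℝ f z := hK.ae_differentiableAt
  -- direction `y`
  have A1 : ∫ z in {z : ℂ | z.re ∈ Ioi (0:ℝ)}, (f z ^ 2 - (deriv G z.re - G z.re ^ 2) * f z ^ 2) ≤
      ∫ z in {z : ℂ | z.re ∈ Ioi (0:ℝ)}, (fderiv ℝ f z Complex.I) ^ 2 := by
    rw [fub_x _ iFH, fub_x _ iQ]
    refine setIntegral_mono_on_ae (int_x _ iFH) (int_x _ iQ) measurableSet_Ioi ?_
    filter_upwards [ae_x hd, hGc] with x hx1 hx2 hx
    have e1 : ∫ y : ℝ, (f ⟨x, y⟩ ^ 2 - (deriv G x - G x ^ 2) * f ⟨x, y⟩ ^ 2) =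
        (1 - (deriv G x - G x ^ 2)) * ∫ y : ℝ, f ⟨x, y⟩ ^ 2 := by
      rw [← integral_const_mul]
      refine integral_congr_ae (Filter.Eventually.of_forall fun y => ?_)
      simp only
      ring
    have e2 : ∫ y : ℝ, (fderiv ℝ f ⟨x, y⟩ Complex.I) ^ 2 =
        ∫ y : ℝ, (deriv (fun s : ℝ => f ⟨x, s⟩) y) ^ 2 := by
      refine integral_congr_ae ?_
      filter_upwards [hx1] with y hy
      rw [deriv_im hy]
    refine (le_of_eq e1).trans ((ydir hf h0 fun ha => ?_).trans (le_of_eq e2.symm))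
    have := hx2 hx ha
    linarith
  -- direction `x`
  have A2 : ∫ z in {z : ℂ | z.re ∈ Ioi (0:ℝ)}, (deriv G z.re - G z.re ^ 2) * f z ^ 2 ≤
      ∫ z in {z : ℂ | z.re ∈ Ioi (0:ℝ)}, (fderiv ℝ f z 1) ^ 2 := by
    rw [fub_y _ iH, fub_y _ iP]
    refine integral_mono_ae (int_y _ iH) (int_y _ iP) ?_
    filter_upwards [ae_y hd] with y hy
    refine (xdir hG hG0 ⟨K, lip_x hK y⟩ (cpt_x hcpt y)).trans (le_of_eq ?_)
    refine integral_congr_ae ?_
    filter_upwards [ae_restrict_of_ae hy] with x hx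
    rw [deriv_re hx]
  have e1 : ∫ z in {z : ℂ | z.re ∈ Ioi (0:ℝ)}, (f z ^ 2 - (deriv G z.re - G z.re ^ 2) * f z ^ 2) =
      (∫ z in {z : ℂ | z.re ∈ Ioi (0:ℝ)}, f z ^ 2) -
        ∫ z in {z : ℂ | z.re ∈ Ioi (0:ℝ)}, (deriv G z.re - G z.re ^ 2) * f z ^ 2 :=
    integral_sub iF.integrableOn iH.integrableOn
  have e2 : en 1 {z : ℂ | z.re ∈ Ioi (0:ℝ)} f =
      (∫ z in {z : ℂ | z.re ∈ Ioi (0:ℝ)}, ‖fderiv ℝ f z‖ ^ 2) -
        ∫ z in {z : ℂ | z.re ∈ Ioi (0:ℝ)}, f z ^ 2 := by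
    unfold en
    rw [← integral_sub hf.integrable_en.integrableOn iF.integrableOn]
    simp only [one_mul]
  have e3 : (∫ z in {z : ℂ | z.re ∈ Ioi (0:ℝ)}, (fderiv ℝ f z 1) ^ 2) +
      (∫ z in {z : ℂ | z.re ∈ Ioi (0:ℝ)}, (fderiv ℝ f z Complex.I) ^ 2) ≤
      ∫ z in {z : ℂ | z.re ∈ Ioi (0:ℝ)}, ‖fderiv ℝ f z‖ ^ 2 := by
    rw [← integral_add iP.integrableOn iQ.integrableOn]
    exact integral_mono (iP.integrableOn.add iQ.integrableOn) hf.integrable_en.integrableOn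
      fun z => norm_ge _
  linarith

end PL3
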