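import Pool.Agent.Lib.PL3.Gen
import Pool.Agent.Lib.PL4.Cell
import Pool.Agent.Lib.PL4.Cut
import Pool.Agent.Lib.DK4.ContM

/-!
Module PL3.Vert: four disjoint pieces from a vertical line.

PROOF.  `PL4.cut` (`n = 3`, `k1 = k2 = 2`, `S = univ`, `p = Complex.re`, null level sets: `DK4.ContMAux.null_re`) gives `t`
with `NegT Ω 1 2` on `univ ∩ {re < t} = Hf t (-1)` and on `univ ∩ {t < re} = Hf t 1`.  For `σ = 1, -1` `PL4.two` gives
`f_σ, g_σ`.  The four sets `Hf t σ ∩ {0 < f_σ}`, `Hf t σ ∩ {0 < g_σ}` are disjoint, measurable and contained in `Ω`.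
Each has `π j01²/2 ≤ |D|` (`PL4.fk_half` with `Λ = 1`).  If one of them has `kap (1 + zl) ≤ |D|`, the first alternative
holds.  Otherwise (`piece_gen`) each has `kap W ≤ |D| + s |St Y t σ ∩ {0 < f}|`, and the four sets
`St Y t σ ∩ {0 < f}` are disjoint and contained in `Ω ∩ {|re - t| ≤ Y}`; add up.
-/

open MeasureTheory Set
open scoped ContDiff NNReal

namespace PL3

open DK4 PL4

namespace VertAux

open CellAux

theorem meas_St (Y t σ : ℝ) : MeasurableSet (St Y t σ) :=
  (isOpen_lt continuous_const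
    (continuous_const.mul (Complex.continuous_re.sub continuous_const))).measurableSet.inter
  (isClosed_le (continuous_const.mul (Complex.continuous_re.sub continuous_const))
    continuous_const).measurableSet

/-- the two pieces in a half plane -/
theorem side {Y s zl W : ℝ} (hC : Cert Y s zl W) (hs : 0 ≤ s) {Ω : Set ℂ}
    (hfin : volume Ω ≠ ⊤) {t σ : ℝ} (hσ : σ = 1 ∨ σ = -1) (h : NegT Ω 1 2 (Hf t σ)) :
    Real.pi * j01 ^ 2 ≤ volume.real (Ω ∩ Hf t σ) ∧
    (kap * (1 + zl) + Real.pi * j01 ^ 2 / 2 ≤ volume.real (Ω ∩ Hf t σ) ∨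
      2 * (kap * W) ≤ volume.real (Ω ∩ Hf t σ) + s * volume.real (Ω ∩ St Y t σ)) := by
  obtain ⟨f, g, hf, hg, f0, g0, hdis, hout, hef, heg⟩ := two (meas_Hf t σ) h
  have h1 := fk_half hf f0 hσ hef
  have h2 := fk_half hg g0 hσ heg
  rw [one_mul] at h1 h2
  have h3 := sum_le hfin (meas_Hf t σ) hf hg hdis hout
  have h4 := mul_le_mul_of_nonneg_left (sum_le hfin (meas_St Y t σ) hf hg hdis hout) hs
  rw [mul_add] at h4
  refine ⟨by linarith, ?_⟩
  rcases piece_gen hC hf f0 hσ hef with p1 | p1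
  · left
    linarith
  rcases piece_gen hC hg g0 hσ heg with p2 | p2
  · left
    linarith
  right
  linarith

/-- additivity -/
theorem add_le {Ω A B C : Set ℂ} (hfin : volume Ω ≠ ⊤) (hΩ : MeasurableSet Ω) (hB : MeasurableSet B)
    (hd : Disjoint A B) (hAC : A ⊆ C) (hBC : B ⊆ C) :
    volume.real (Ω ∩ A) + volume.real (Ω ∩ B) ≤ volume.real (Ω ∩ C) := by
  have hfin' : ∀ S : Set ℂ, volume (Ω ∩ S) ≠ ⊤ := fun S =>
    ne_top_of_le_ne_top hfin (measure_mono inter_subset_left)
  rw [← measureReal_union (hd.mono inter_subset_right inter_subset_right) (hΩ.inter hB)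
    (hfin' A) (hfin' B)]
  exact measureReal_mono (union_subset (inter_subset_inter_right _ hAC)
    (inter_subset_inter_right _ hBC)) (hfin' C)

theorem null_level (t : ℝ) : volume {z : ℂ | z.re = t} = 0 := by
  have h := ContMAux.null_re t
  rw [ae_iff] at h
  simpa using h

theorem hf_left (t : ℝ) : univ ∩ {z : ℂ | z.re < t} = Hf t (-1) := by
  ext z
  simp only [univ_inter, mem_ofPred_eq, Hf]
  constructor <;> intro h <;> linarith

theorem hf_right (t : ℝ) : univ ∩ {z : ℂ | t < z.re} = Hf t 1 := by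
  ext z
  simp only [univ_inter, mem_ofPred_eq, Hf]
  constructor <;> intro h <;> linarith

end VertAux

open VertAux CellAux

theorem vert {Y s zl W : ℝ} (hC : Cert Y s zl W) (hs : 0 ≤ s) {Ω : Set ℂ} (hΩ : IsOpen Ω)
    (hfin : volume Ω ≠ ⊤) (h : NegT Ω 1 3 univ) :
    ∃ t : ℝ, kap * (1 + zl) + 3 * (Real.pi * j01 ^ 2 / 2) ≤ volume.real Ω ∨
      4 * (kap * W) ≤ volume.real Ω + s * volume.real (Ω ∩ {z | |z.re - t| ≤ Y}) := by
  obtain ⟨t, hl, hr⟩ := cut (k1 := 2) (k2 := 2) (by norm_num) (by norm_num) (by norm_num)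
    MeasurableSet.univ Complex.continuous_re null_level h
  rw [hf_left] at hl
  rw [hf_right] at hr
  refine ⟨t, ?_⟩
  obtain ⟨l1, l2⟩ := side hC hs hfin (Or.inr rfl) hl
  obtain ⟨r1, r2⟩ := side hC hs hfin (Or.inl rfl) hr
  have a1 : volume.real (Ω ∩ Hf t (-1)) + volume.real (Ω ∩ Hf t 1) ≤ volume.real Ω := by
    have h1 := add_le (A := Hf t (-1)) (B := Hf t 1) (C := univ) hfin hΩ.measurableSet
      (meas_Hf t 1) ?_ (subset_univ _) (subset_univ _)
    · rwa [inter_univ] at h1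
    · rw [Set.disjoint_left]
      intro z h1 h2
      have h1' : 0 < (-1) * (z.re - t) := h1
      have h2' : 0 < 1 * (z.re - t) := h2
      linarith
  have a2 : volume.real (Ω ∩ St Y t (-1)) + volume.real (Ω ∩ St Y t 1) ≤
      volume.real (Ω ∩ {z | |z.re - t| ≤ Y}) := by
    refine add_le hfin hΩ.measurableSet (meas_St Y t 1) ?_ ?_ ?_
    · rw [Set.disjoint_left]
      intro z h1 h2
      have h1' : 0 < (-1) * (z.re - t) := h1.1
      have h2' : 0 < 1 * (z.re - t) := h2.1
      linarith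
    · rintro z ⟨h1, h2⟩
      rw [mem_ofPred_eq, abs_le]
      constructor <;> linarith
    · rintro z ⟨h1, h2⟩
      rw [mem_ofPred_eq, abs_le]
      constructor <;> linarith
  have a3 := mul_le_mul_of_nonneg_left a2 hs
  rw [mul_add] at a3
  rcases l2 with l2 | l2
  · left
    linarith
  rcases r2 with r2 | r2
  · left
    linarith
  right
  linarith

end PL3
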